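import Mathlib

/-!
Definitions for problem MP_33280d_mp: banded operators on `ℓ²(ℤ)` and BGK expansions.
-/

open MeasureTheory ComplexConjugate
open scoped ENNReal

namespace H987Cav

/-- The Hilbert space `ℓ²(ℤ)` of complex sequences. -/
noncomputable abbrev Hil := lp (fun _ : ℤ => ℂ) 2

/-- The standard basis vector `δ_m` of `ℓ²(ℤ)`. -/
noncomputable def del (m : ℤ) : Hil := lp.single 2 m (1 : ℂ)

/-- Matrix elements `a_ij = (δ_i, A δ_j)`. -/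
noncomputable def elt (A : Hil →L[ℂ] Hil) (i j : ℤ) : ℂ := inner ℂ (del i) (A (del j))

/-- `a_ij = 0` whenever `|i - j| ≥ K`. -/
def BandedBy (A : Hil →L[ℂ] Hil) (K : ℕ) : Prop :=
  ∀ i j : ℤ, (K : ℤ) ≤ |i - j| → elt A i j = 0

/-- `v` solves `∑_j a_ij v_j = E v_i` for every `i` (no decay of `v` is required). -/
def FormalEig (A : Hil →L[ℂ] Hil) (E : ℂ) (v : ℤ → ℂ) : Prop :=
  ∀ i, HasSum (fun j => elt A i j * v j) (E * v i)

/-- The measure on `ℝ × ℕ` which is `ρ` on the `α`-th copy of `{E | α < n E}`.  A function on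
`ℝ × ℕ` modulo null sets is a family `(f_α(E))_{α < n(E)}`, and
`L²(fib ρ n) = L²(ℝ; ℂ^{n(E)}; dρ)`, the components being numbered `α = 0, 1, …` below `n E`. -/
noncomputable def fib (ρ : Measure ℝ) (n : ℝ → ℕ∞) : Measure (ℝ × ℕ) :=
  Measure.sum fun α : ℕ => (ρ.restrict {E | (α : ℕ∞) < n E}).map (fun E => (E, α))

/-- A BGK expansion of `A`: the measure `ρ`, the multiplicity `n`, the linearly independent
sequences `u_α(E;·)`, `α < n(E)`, with (a) the growth bound, (b) the eigenvalue equation,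
(c) the unitary map `U` of `ℓ²(ℤ)` onto `L²(ℝ; ℂ^{n(E)}; dρ)` with
`(U δ_m)_α(E) = conj (u_α(E;m))`, and (d) `U` carries `A` to multiplication by `E`. -/
structure BGK (A : Hil →L[ℂ] Hil) where
  /-- the measure -/
  ρ : Measure ℝ
  /-- the multiplicity -/
  n : ℝ → ℕ∞
  measurable_n : Measurable n
  one_le_n : ∀ᵐ E ∂ρ, 1 ≤ n E
  n_eq_zero : ∀ E, E ∉ ρ.support → n E = 0
  /-- the generalized eigenfunctions -/
  u : ℝ → ℕ → ℤ → ℂ
  linInd : ∀ E, LinearIndependent ℂ (fun α : {α : ℕ // (α : ℕ∞) < n E} => u E α)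
  growth : ∀ E, ∀ α : ℕ, (α : ℕ∞) < n E → ∃ C : ℝ, ∀ m, ‖u E α m‖ ≤ C * (1 + |(m : ℝ)|)
  eigen : ∀ E, ∀ α : ℕ, (α : ℕ∞) < n E → FormalEig A (E : ℂ) (u E α)
  /-- the unitary map -/
  U : Hil ≃ₗᵢ[ℂ] Lp ℂ 2 (fib ρ n)
  U_del : ∀ m, U (del m) =ᵐ[fib ρ n] fun p => conj (u p.1 p.2 m)
  U_mul : ∀ g, U (A g) =ᵐ[fib ρ n] fun p => (p.1 : ℂ) * U g p

end H987Cav
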