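import Pool.Agent.H987Cav.Ortho
import Pool.Agent.H987Cav.Defs

/-!
The Hilbert basis of `L²` of the circle, the operator of multiplication by `cos`, and its matrix.
-/

open Complex MeasureTheory ComplexConjugate Metric Submodule
open scoped Real ENNReal

namespace H987Cav

variable {r : ℤ → ℝ} {a : ℤ → ℂ}

/-- normalised Haar measure of the circle -/
noncomputable abbrev hm : Measure (AddCircle (2 * π)) := AddCircle.haarAddCircle

/-- the basis vector with index `m` as a continuous function -/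
noncomputable def fc (h : Good r a) (m : ℤ) : C(AddCircle (2 * π), ℂ) :=
  ⟨fun x => conj (ff r a m (zt x)), continuous_conj.comp (cont_ff h m)⟩

lemma fc_apply (h : Good r a) (m : ℤ) (x : AddCircle (2 * π)) :
    fc h m x = conj (ff r a m (zt x)) := rfl

lemma fourier_one_eq (x : AddCircle (2 * π)) : fourier 1 x = zt x := by
  rw [fourier_one]; rfl

lemma fourier_neg_one_eq (x : AddCircle (2 * π)) : fourier (-1) x = (zt x)⁻¹ := by
  rw [fourier_neg, fourier_one_eq, zinv (norm_zt x)]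

lemma mulz_mem (h : Good r a) (m : ℤ) :
    fourier 1 * fc h m ∈ span ℂ (Set.range (fc h)) := by
  have key : ∀ (i j : ℤ) (α β : ℂ), (∀ z, ‖z‖ = 1 → z⁻¹ * ff r a m z = α * ff r a i z
      + β * ff r a j z) → fourier 1 * fc h m = conj α • fc h i + conj β • fc h j := by
    intro i j α β H
    ext x
    have hz := norm_zt x
    have := congrArg conj (H _ hz)
    simp only [ContinuousMap.mul_apply, ContinuousMap.add_apply, ContinuousMap.smul_apply,
      fc_apply, smul_eq_mul, fourier_one_eq]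
    rw [map_mul, zinv hz, Complex.conj_conj, map_add, map_mul, map_mul] at this
    exact this
  have mem : ∀ i, fc h i ∈ span ℂ (Set.range (fc h)) := fun i => subset_span ⟨i, rfl⟩
  rcases Int.even_or_odd' m with ⟨k, hk | hk⟩
  · have := key (2 * (k - 1)) (2 * (k - 1) + 1) _ _ (by
      intro z hz
      have := rel3 h (k - 1) hz
      rw [show 2 * (k - 1) + 2 = m by omega] at this
      exact this)
    rw [this]
    exact add_mem (smul_mem _ _ (mem _)) (smul_mem _ _ (mem _))
  · have := key (2 * k) (2 * k + 1) _ _ (by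
      intro z hz
      rw [hk]
      exact rel4 h k hz)
    rw [this]
    exact add_mem (smul_mem _ _ (mem _)) (smul_mem _ _ (mem _))

lemma mulzinv_mem (h : Good r a) (m : ℤ) :
    fourier (-1) * fc h m ∈ span ℂ (Set.range (fc h)) := by
  have key : ∀ (i j : ℤ) (α β : ℂ), (∀ z, ‖z‖ = 1 → z * ff r a m z = α * ff r a i z
      + β * ff r a j z) → fourier (-1) * fc h m = conj α • fc h i + conj β • fc h j := by
    intro i j α β H
    ext x
    have hz := norm_zt x
    have := congrArg conj (H _ hz)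
    simp only [ContinuousMap.mul_apply, ContinuousMap.add_apply, ContinuousMap.smul_apply,
      fc_apply, smul_eq_mul, fourier_neg_one_eq]
    rw [map_mul, ← zinv hz, map_add, map_mul, map_mul] at this
    exact this
  have mem : ∀ i, fc h i ∈ span ℂ (Set.range (fc h)) := fun i => subset_span ⟨i, rfl⟩
  rcases Int.even_or_odd' m with ⟨k, hk | hk⟩
  · have := key (2 * k + 2) (2 * k + 1) _ _ (by
      intro z hz
      rw [hk]
      exact rel1 h k hz)
    rw [this]
    exact add_mem (smul_mem _ _ (mem _)) (smul_mem _ _ (mem _))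
  · have := key (2 * k + 2) (2 * k + 1) _ _ (by
      intro z hz
      rw [hk]
      exact rel2 h k hz)
    rw [this]
    exact add_mem (smul_mem _ _ (mem _)) (smul_mem _ _ (mem _))

lemma mul_span (h : Good r a) (g : C(AddCircle (2 * π), ℂ))
    (hg : ∀ m, g * fc h m ∈ span ℂ (Set.range (fc h))) {v : C(AddCircle (2 * π), ℂ)}
    (hv : v ∈ span ℂ (Set.range (fc h))) : g * v ∈ span ℂ (Set.range (fc h)) := by
  induction hv using span_induction with
  | mem x hx => obtain ⟨m, rfl⟩ := hx; exact hg m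
  | zero => simp
  | add x y _ _ hx hy => rw [mul_add]; exact add_mem hx hy
  | smul c x _ hx => rw [mul_smul_comm]; exact smul_mem _ _ hx

lemma fourier_mem (h : Good r a) (n : ℤ) : fourier n ∈ span ℂ (Set.range (fc h)) := by
  induction n using Int.induction_on with
  | zero =>
    have : fourier 0 = fc h 0 := by
      ext x
      rw [fourier_zero, fc_apply, show (0 : ℤ) = 2 * 0 by ring, ff_even, Pf_zero, map_one]
    rw [this]
    exact subset_span ⟨0, rfl⟩
  | succ n ih =>
    have : (fourier ((n : ℤ) + 1) : C(AddCircle (2 * π), ℂ)) = fourier 1 * fourier n := by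
      ext x; rw [ContinuousMap.mul_apply, fourier_add, mul_comm]
    rw [this]
    exact mul_span h _ (mulz_mem h) ih
  | pred n ih =>
    have : (fourier (-(n : ℤ) - 1) : C(AddCircle (2 * π), ℂ)) = fourier (-1) * fourier (-n) := by
      ext x; rw [ContinuousMap.mul_apply, sub_eq_add_neg, fourier_add, mul_comm]
    rw [this]
    exact mul_span h _ (mulzinv_mem h) ih

/-- the basis vector in `L²` -/
noncomputable def fv (h : Good r a) (m : ℤ) : Lp ℂ 2 hm :=
  ContinuousMap.toLp (E := ℂ) 2 hm ℂ (fc h m)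

lemma inner_fv (_h : Good r a) (g g' : C(AddCircle (2 * π), ℂ)) :
    inner ℂ (ContinuousMap.toLp (E := ℂ) 2 hm ℂ g) (ContinuousMap.toLp (E := ℂ) 2 hm ℂ g') =
      ∫ x, g' x * conj (g x) ∂hm := by
  rw [ContinuousMap.inner_toLp]

lemma orthonormal_fv (h : Good r a) : Orthonormal ℂ (fv h) := by
  rw [orthonormal_iff_ite]
  intro i j
  unfold fv
  rw [inner_fv h]
  simp only [fc_apply, Complex.conj_conj]
  rw [ortho h j i]
  simp [eq_comm]

lemma span_fv (h : Good r a) : ⊤ ≤ (span ℂ (Set.range (fv h))).topologicalClosure := by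
  rw [← span_fourierLp_closure_eq_top (T := 2 * π) (p := 2) (by norm_num)]
  apply topologicalClosure_mono
  rw [span_le]
  rintro _ ⟨n, rfl⟩
  have h1 : Set.range (fv h) = (ContinuousMap.toLp (E := ℂ) 2 hm ℂ) '' (Set.range (fc h)) := by
    rw [← Set.range_comp]; rfl
  rw [h1]
  have h2 := Submodule.mem_map_of_mem (f := (ContinuousMap.toLp (E := ℂ) 2 hm ℂ).toLinearMap)
    (fourier_mem h n)
  rw [map_span] at h2
  exact h2

/-- the Hilbert basis -/
noncomputable def hb (h : Good r a) : HilbertBasis ℤ ℂ (Lp ℂ 2 hm) :=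
  HilbertBasis.mk (orthonormal_fv h) (span_fv h)

lemma hb_apply (h : Good r a) (m : ℤ) : hb h m = fv h m := by
  unfold hb; rw [HilbertBasis.coe_mk]

/-- `cos` on the circle as a complex continuous function -/
noncomputable def cc : C(AddCircle (2 * π), ℂ) :=
  ⟨fun x => ((zt x).re : ℂ), by
    exact continuous_ofReal.comp (continuous_re.comp continuous_zt)⟩

lemma cc_apply (x : AddCircle (2 * π)) : cc x = ((zt x).re : ℂ) := rfl

/-- multiplication by `cos` on `L²` of the circle -/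
noncomputable def Mc : Lp ℂ 2 hm →L[ℂ] Lp ℂ 2 hm :=
  (ContinuousLinearMap.mul ℂ ℂ).holderL hm ∞ 2 2 (ContinuousMap.toLp (E := ℂ) ∞ hm ℂ cc)

lemma Mc_ae (f : Lp ℂ 2 hm) : Mc f =ᵐ[hm] fun x => cc x * f x := by
  unfold Mc
  rw [ContinuousLinearMap.holderL_apply_apply]
  filter_upwards [(ContinuousLinearMap.mul ℂ ℂ).coeFn_holder (r := 2)
    (ContinuousMap.toLp (E := ℂ) ∞ hm ℂ cc) f, ContinuousMap.coeFn_toLp (p := ∞) (𝕜 := ℂ) hm cc]
    with x hx hx2
  rw [hx, hx2]
  rfl

lemma Mc_symm (f g : Lp ℂ 2 hm) : inner ℂ (Mc f) g = inner ℂ f (Mc g) := by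
  rw [L2.inner_def, L2.inner_def]
  apply integral_congr_ae
  filter_upwards [Mc_ae f, Mc_ae g] with x hx hy
  rw [hx, hy]
  simp only [RCLike.inner_apply, map_mul, cc_apply, Complex.conj_ofReal]
  ring

lemma Mc_toLp (g : C(AddCircle (2 * π), ℂ)) :
    Mc (ContinuousMap.toLp (E := ℂ) 2 hm ℂ g) = ContinuousMap.toLp (E := ℂ) 2 hm ℂ (cc * g) := by
  apply Lp.ext
  filter_upwards [Mc_ae (ContinuousMap.toLp (E := ℂ) 2 hm ℂ g),
    ContinuousMap.coeFn_toLp (p := 2) (𝕜 := ℂ) hm g,
    ContinuousMap.coeFn_toLp (p := 2) (𝕜 := ℂ) hm (cc * g)] with x h1 h2 h3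
  rw [h1, h2, h3]; rfl

lemma norm_Mc : ‖Mc‖ ≤ 1 := by
  apply ContinuousLinearMap.opNorm_le_bound _ zero_le_one
  intro f
  rw [one_mul]
  apply Lp.norm_le_norm_of_ae_le
  filter_upwards [Mc_ae f] with x hx
  rw [hx, norm_mul]
  have : ‖cc x‖ ≤ 1 := by
    rw [cc_apply, Complex.norm_real, Real.norm_eq_abs]
    calc |(zt x).re| ≤ ‖zt x‖ := Complex.abs_re_le_norm _
      _ = 1 := norm_zt x
  nlinarith [norm_nonneg (f x)]

/-- the banded self-adjoint operator on `ℓ²(ℤ)` -/
noncomputable def Aop (h : Good r a) : Hil →L[ℂ] Hil :=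
  ((hb h).repr : Lp ℂ 2 hm →L[ℂ] Hil) ∘L Mc ∘L
    ((hb h).repr.symm : Hil →L[ℂ] Lp ℂ 2 hm)

lemma Aop_apply (h : Good r a) (x : Hil) :
    Aop h x = (hb h).repr (Mc ((hb h).repr.symm x)) := rfl

lemma Aop_symm (h : Good r a) (x y : Hil) :
    inner ℂ (Aop h x) y = inner ℂ x (Aop h y) := by
  rw [Aop_apply, Aop_apply]
  conv_lhs => rw [← (hb h).repr.apply_symm_apply y, LinearIsometryEquiv.inner_map_map, Mc_symm]
  conv_rhs => rw [← (hb h).repr.apply_symm_apply x, LinearIsometryEquiv.inner_map_map]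

lemma Aop_sa (h : Good r a) : IsSelfAdjoint (Aop h) := by
  rw [ContinuousLinearMap.isSelfAdjoint_iff_isSymmetric]
  intro x y
  exact Aop_symm h x y

lemma Aop_norm (h : Good r a) : ‖Aop h‖ ≤ 1 := by
  apply ContinuousLinearMap.opNorm_le_bound _ zero_le_one
  intro x
  rw [Aop_apply, LinearIsometryEquiv.norm_map]
  calc ‖Mc ((hb h).repr.symm x)‖ ≤ ‖Mc‖ * ‖(hb h).repr.symm x‖ := Mc.le_opNorm _
    _ ≤ 1 * ‖(hb h).repr.symm x‖ := by gcongr; exact norm_Mc
    _ = 1 * ‖x‖ := by rw [LinearIsometryEquiv.norm_map]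

lemma inner_repr (h : Good r a) (x : Hil) (y : Lp ℂ 2 hm) :
    inner ℂ x ((hb h).repr y) = inner ℂ ((hb h).repr.symm x) y := by
  conv_lhs => rw [← (hb h).repr.apply_symm_apply x, LinearIsometryEquiv.inner_map_map]

lemma symm_del (h : Good r a) (m : ℤ) : (hb h).repr.symm (del m) = fv h m := by
  unfold del
  rw [(hb h).repr_symm_single, hb_apply]

lemma elt_Aop (h : Good r a) (i j : ℤ) :
    elt (Aop h) i j = ∫ x, (cc x * ff r a i (zt x)) * conj (ff r a j (zt x)) ∂hm := by
  unfold elt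
  rw [Aop_apply, inner_repr, symm_del, symm_del]
  unfold fv
  rw [Mc_toLp, inner_fv h]
  apply integral_congr_ae
  filter_upwards with x
  simp only [ContinuousMap.mul_apply, fc_apply, Complex.conj_conj]
  ring

/-- if `cos · f_i` is a finite combination of the `f_l`, the matrix row `i` is read off -/
lemma elt_of_exp (h : Good r a) {n : ℕ} (i : ℤ) (idx : Fin n → ℤ) (co : Fin n → ℂ)
    (H : ∀ z, ‖z‖ = 1 → (z.re : ℂ) * ff r a i z = ∑ t, co t * ff r a (idx t) z) (j : ℤ) :
    elt (Aop h) i j = ∑ t, co t * (if idx t = j then 1 else 0) := by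
  rw [elt_Aop]
  have h1 : ∀ x, (cc x * ff r a i (zt x)) * conj (ff r a j (zt x)) =
      ∑ t, co t * (conj (ff r a j (zt x)) * ff r a (idx t) (zt x)) := by
    intro x
    rw [cc_apply, H _ (norm_zt x), Finset.sum_mul]
    apply Finset.sum_congr rfl
    intro t _
    ring
  simp_rw [h1]
  rw [integral_finsetSum]
  · apply Finset.sum_congr rfl
    intro t _
    rw [integral_const_mul, ortho h]
    simp only [eq_comm]
  · intro t _
    apply Integrable.const_mul
    apply integrable_cont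
    exact (continuous_conj.comp (cont_ff h j)).mul (cont_ff h (idx t))

lemma hasSum_row (h : Good r a) {n : ℕ} (i : ℤ) (idx : Fin n → ℤ) (co : Fin n → ℂ)
    (H : ∀ z, ‖z‖ = 1 → (z.re : ℂ) * ff r a i z = ∑ t, co t * ff r a (idx t) z) (v : ℤ → ℂ) :
    HasSum (fun j => elt (Aop h) i j * v j) (∑ t, co t * v (idx t)) := by
  have h1 : (fun j => elt (Aop h) i j * v j) =
      fun j => ∑ t, (if j = idx t then co t * v (idx t) else 0) := by
    ext j
    rw [elt_of_exp h i idx co H j, Finset.sum_mul]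
    apply Finset.sum_congr rfl
    intro t _
    by_cases hj : idx t = j
    · rw [if_pos hj, if_pos hj.symm, hj]; ring
    · rw [if_neg hj, if_neg (Ne.symm hj)]; ring
  rw [h1]
  apply hasSum_sum
  intro t _
  exact hasSum_ite_eq _ _

lemma two_re {z : ℂ} (hz : ‖z‖ = 1) : (z.re : ℂ) = (z + z⁻¹) / 2 := by
  rw [zinv hz, Complex.add_conj]
  push_cast
  ring

lemma exp_even (h : Good r a) (k : ℤ) : ∀ z, ‖z‖ = 1 → (z.re : ℂ) * ff r a (2 * k) z =
    ∑ t, (![-(r k : ℂ) / 2, sf r k * a k / 2, sf r (k - 1) / 2, -(r (k - 1) : ℂ) / 2] : Fin 4 → ℂ) t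
      * ff r a ((![2 * k + 2, 2 * k + 1, 2 * k - 1, 2 * k - 2] : Fin 4 → ℤ) t) z := by
  intro z hz
  rw [two_re hz, Fin.sum_univ_four]
  have h1 := rel1 h k hz
  have h2 := rel3 h (k - 1) hz
  rw [show 2 * (k - 1) + 2 = 2 * k by ring, show 2 * (k - 1) + 1 = 2 * k - 1 by ring,
    show 2 * (k - 1) = 2 * k - 2 by ring] at h2
  simp only [Matrix.cons_val]
  linear_combination (1 / 2) * h1 + (1 / 2) * h2

lemma exp_odd (h : Good r a) (k : ℤ) : ∀ z, ‖z‖ = 1 → (z.re : ℂ) * ff r a (2 * k + 1) z =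
    ∑ t, (![(sf r k : ℂ) / 2, r k * (a k + conj (a k)) / 2, sf r k * conj (a k) / 2] : Fin 3 → ℂ) t
      * ff r a ((![2 * k + 2, 2 * k + 1, 2 * k] : Fin 3 → ℤ) t) z := by
  intro z hz
  rw [two_re hz, Fin.sum_univ_three]
  have h1 := rel2 h k hz
  have h2 := rel4 h k hz
  simp only [Matrix.cons_val]
  linear_combination (1 / 2) * h1 + (1 / 2) * h2

lemma formal_ff (h : Good r a) {z : ℂ} (hz : ‖z‖ = 1) :
    FormalEig (Aop h) (z.re : ℂ) (fun m => ff r a m z) := by
  intro i
  rcases Int.even_or_odd' i with ⟨k, hk | hk⟩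
  · subst hk
    rw [exp_even h k z hz]
    exact hasSum_row h _ _ _ (exp_even h k) _
  · subst hk
    rw [exp_odd h k z hz]
    exact hasSum_row h _ _ _ (exp_odd h k) _

lemma banded (h : Good r a) (i j : ℤ) (hij : 3 ≤ |i - j|) : elt (Aop h) i j = 0 := by
  rcases Int.even_or_odd' i with ⟨k, hk | hk⟩
  · subst hk
    rw [elt_of_exp h _ _ _ (exp_even h k) j, Fin.sum_univ_four]
    simp only [Matrix.cons_val]
    rw [if_neg, if_neg, if_neg, if_neg]
    · simp
    all_goals intro hh; subst hh; revert hij; simp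
  · subst hk
    rw [elt_of_exp h _ _ _ (exp_odd h k) j, Fin.sum_univ_three]
    simp only [Matrix.cons_val]
    rw [if_neg, if_neg, if_neg]
    · simp
    all_goals intro hh; subst hh; revert hij; simp

end H987Cav
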