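import Pool.Agent.H987Cav.Defs

/-!
General facts on BGK expansions: the weighted summability, and localisation of the measure.
-/

open Complex MeasureTheory ComplexConjugate Set
open scoped Real ENNReal

namespace H987Cav

lemma measurableSet_lt_n {n : ℝ → ℕ∞} (hn : Measurable n) (α : ℕ) :
    MeasurableSet {E | (α : ℕ∞) < n E} :=
  hn (MeasurableSet.of_discrete (s := Ioi (α : ℕ∞)))

lemma fib_ae {ρ : Measure ℝ} {n : ℝ → ℕ∞} (hn : Measurable n) {P : ℝ × ℕ → Prop}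
    (H : ∀ᵐ p ∂(fib ρ n), P p) : ∀ᵐ E ∂ρ, ∀ α : ℕ, (α : ℕ∞) < n E → P (E, α) := by
  unfold fib at H
  rw [Measure.ae_sum_iff] at H
  rw [ae_all_iff]
  intro α
  have h1 := ae_of_ae_map (by fun_prop) (H α)
  rwa [ae_restrict_iff' (measurableSet_lt_n hn α)] at h1

lemma ae_fib_of {ρ : Measure ℝ} {n : ℝ → ℕ∞} {s : Set ℝ} (hs : MeasurableSet s)
    (H : ∀ᵐ E ∂ρ, E ∈ s) : ∀ᵐ p ∂(fib ρ n), p.1 ∈ s := by
  unfold fib
  rw [Measure.ae_sum_iff]
  intro α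
  refine (ae_map_iff (p := fun p : ℝ × ℕ => p.1 ∈ s) (by fun_prop) (measurable_fst hs)).mpr ?_
  exact ae_restrict_of_ae H

variable {A : Hil →L[ℂ] Hil}

lemma norm_del (m : ℤ) : ‖del m‖ = 1 := by
  unfold del
  rw [lp.norm_single (by norm_num)]
  simp

lemma lintegral_U (B : BGK A) (m : ℤ) :
    ∫⁻ p, ‖B.u p.1 p.2 m‖ₑ ^ 2 ∂(fib B.ρ B.n) = 1 := by
  have h1 : ‖B.U (del m)‖ = 1 := by rw [LinearIsometryEquiv.norm_map, norm_del]
  have h2 : ‖B.U (del m)‖ₑ = 1 := by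
    rw [← ofReal_norm, h1, ENNReal.ofReal_one]
  rw [Lp.enorm_def, eLpNorm_congr_ae (B.U_del m)] at h2
  have h3 := congrArg (fun t : ℝ≥0∞ => t ^ (2 : ℝ)) h2
  rw [eLpNorm_eq_lintegral_rpow_enorm_toReal (by norm_num) (by norm_num)] at h3
  simp only [ENNReal.toReal_ofNat, one_div, ENNReal.one_rpow] at h3
  rw [← ENNReal.rpow_mul, inv_mul_cancel₀ (by norm_num), ENNReal.rpow_one] at h3
  rw [← h3]
  apply lintegral_congr
  intro p
  rw [RCLike.enorm_conj]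
  norm_num

/-- Summable weights work for every BGK expansion. -/
theorem summable_dir (w : ℕ → ℝ) (hw : ∀ m, 0 ≤ w m) (hs : Summable w) (B : BGK A) :
    ∀ᵐ E ∂B.ρ, ∀ α : ℕ, (α : ℕ∞) < B.n E →
      Summable (fun m : ℤ => w m.natAbs * ‖B.u E α m‖ ^ 2) := by
  apply fib_ae B.measurable_n
    (P := fun p => Summable (fun m : ℤ => w m.natAbs * ‖B.u p.1 p.2 m‖ ^ 2))
  have hmeas : ∀ m : ℤ, AEMeasurable (fun p : ℝ × ℕ => ‖B.u p.1 p.2 m‖ₑ ^ 2)
      (fib B.ρ B.n) := by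
    intro m
    have h1 : AEStronglyMeasurable (fun p : ℝ × ℕ => conj (B.u p.1 p.2 m)) (fib B.ρ B.n) :=
      (Lp.aestronglyMeasurable (B.U (del m))).congr (B.U_del m)
    have h2 := h1.enorm
    have h3 : (fun p : ℝ × ℕ => ‖conj (B.u p.1 p.2 m)‖ₑ) = fun p => ‖B.u p.1 p.2 m‖ₑ := by
      ext p; rw [RCLike.enorm_conj]
    rw [h3] at h2
    exact h2.pow_const 2
  have hsZ : Summable (fun m : ℤ => w m.natAbs) := by
    apply Summable.of_nat_of_neg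
    · simpa using hs
    · simpa using hs
  have hfin : ∫⁻ p, ∑' m : ℤ, ENNReal.ofReal (w m.natAbs) * ‖B.u p.1 p.2 m‖ₑ ^ 2
      ∂(fib B.ρ B.n) ≠ ∞ := by
    rw [lintegral_tsum (fun m => (hmeas m).const_mul _)]
    have : ∀ m : ℤ, ∫⁻ p, ENNReal.ofReal (w m.natAbs) * ‖B.u p.1 p.2 m‖ₑ ^ 2
        ∂(fib B.ρ B.n) = ENNReal.ofReal (w m.natAbs) := by
      intro m
      rw [lintegral_const_mul'' _ (hmeas m), lintegral_U, mul_one]
    simp_rw [this]
    rw [← ENNReal.ofReal_tsum_of_nonneg (fun m => hw _) hsZ]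
    exact ENNReal.ofReal_ne_top
  have hae := ae_lt_top' (AEMeasurable.tsum fun m => (hmeas m).const_mul _) hfin
  filter_upwards [hae] with p hp
  have h4 : ∀ m : ℤ, ENNReal.ofReal (w m.natAbs) * ‖B.u p.1 p.2 m‖ₑ ^ 2 =
      ENNReal.ofReal (w m.natAbs * ‖B.u p.1 p.2 m‖ ^ 2) := by
    intro m
    rw [ENNReal.ofReal_mul (hw _), ← ofReal_norm, ENNReal.ofReal_pow (norm_nonneg _)]
  simp_rw [h4] at hp
  have h5 := ENNReal.summable_toReal hp.ne
  refine h5.congr fun m => ?_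
  rw [ENNReal.toReal_ofReal]
  exact mul_nonneg (hw _) (by positivity)

lemma fixed_zero (B0 : BGK A) (h0 : ∀ᵐ E ∂B0.ρ, E ∈ Ioo (-1 : ℝ) 1) (hA : ‖A‖ ≤ 1)
    (hsa : ∀ x y, inner ℂ (A x) y = inner ℂ x (A y)) (g : Hil) (hg : ‖g‖ ≤ ‖A g‖) : g = 0 := by
  have hle : ∀ x, ‖A x‖ ≤ ‖x‖ := fun x => by
    calc ‖A x‖ ≤ ‖A‖ * ‖x‖ := A.le_opNorm x
      _ ≤ 1 * ‖x‖ := by gcongr
      _ = ‖x‖ := one_mul _
  have hAA : A (A g) = g := by
    have h1 : ‖A (A g) - g‖ ^ 2 = ‖A (A g)‖ ^ 2 - 2 * RCLike.re (inner ℂ (A (A g)) g) + ‖g‖ ^ 2 :=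
      norm_sub_sq (𝕜 := ℂ) (A (A g)) g
    rw [hsa (A g) g, inner_self_eq_norm_sq] at h1
    have h2 : ‖A (A g)‖ ≤ ‖g‖ := (hle _).trans (hle _)
    have h3 : ‖A (A g) - g‖ ^ 2 ≤ 0 := by
      rw [h1]
      nlinarith [norm_nonneg (A (A g)), norm_nonneg g, norm_nonneg (A g)]
    have h4 : ‖A (A g) - g‖ = 0 := by
      have := sq_nonneg ‖A (A g) - g‖
      exact pow_eq_zero_iff (two_ne_zero) |>.mp (le_antisymm h3 this)
    exact sub_eq_zero.mp (norm_eq_zero.mp h4)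
  have h5 := B0.U_mul (A g)
  have h6 := B0.U_mul g
  rw [hAA] at h5
  have h7 := ae_fib_of (n := B0.n) measurableSet_Ioo h0
  have h8 : B0.U g = 0 := by
    apply Lp.ext
    filter_upwards [h5, h6, h7, Lp.coeFn_zero ℂ 2 (fib B0.ρ B0.n)] with p e5 e6 e7 e8
    rw [e8]
    rw [e6] at e5
    have h9 : (1 - (p.1 : ℂ) * p.1) * B0.U g p = 0 := by linear_combination e5
    rcases mul_eq_zero.mp h9 with h | h
    · exfalso
      have : (1 : ℝ) - p.1 * p.1 = 0 := by exact_mod_cast h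
      nlinarith [e7.1, e7.2]
    · exact h
  exact (LinearIsometryEquiv.map_eq_zero_iff B0.U).mp h8

/-- If one BGK expansion is carried by `(-1,1)`, so is every other one. -/
theorem carried (B0 : BGK A) (h0 : ∀ᵐ E ∂B0.ρ, E ∈ Ioo (-1 : ℝ) 1) (hA : ‖A‖ ≤ 1)
    (hsa : ∀ x y, inner ℂ (A x) y = inner ℂ x (A y)) (B : BGK A) :
    ∀ᵐ E ∂B.ρ, E ∈ Ioo (-1 : ℝ) 1 := by
  set S : Set (ℝ × ℕ) := {p | 1 ≤ |p.1|} with hS
  have hSm : MeasurableSet S := measurableSet_le measurable_const (by fun_prop)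
  have key : ∀ m : ℤ, ∀ᵐ p ∂(fib B.ρ B.n), p ∈ S → B.u p.1 p.2 m = 0 := by
    intro m
    have hmem : MemLp (S.indicator (B.U (del m))) 2 (fib B.ρ B.n) :=
      (Lp.memLp (B.U (del m))).indicator hSm
    set g : Hil := B.U.symm (hmem.toLp _) with hg
    have hUg : B.U g = hmem.toLp _ := by rw [hg, LinearIsometryEquiv.apply_symm_apply]
    have hz : g = 0 := by
      apply fixed_zero B0 h0 hA hsa
      rw [← B.U.norm_map g, ← B.U.norm_map (A g)]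
      apply Lp.norm_le_norm_of_ae_le
      filter_upwards [B.U_mul g, hmem.coeFn_toLp] with p e1 e2
      rw [e1, hUg, e2, norm_mul, Complex.norm_real, Real.norm_eq_abs]
      by_cases hp : p ∈ S
      · have : 1 ≤ |p.1| := hp
        nlinarith [norm_nonneg (S.indicator (B.U (del m)) p)]
      · rw [indicator_of_notMem hp]; simp
    rw [hz, map_zero] at hUg
    have h1 := hmem.coeFn_toLp
    rw [← hUg] at h1
    filter_upwards [h1, Lp.coeFn_zero ℂ 2 (fib B.ρ B.n), B.U_del m] with p e1 e2 e3 hp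
    rw [e2, indicator_of_mem hp, e3] at e1
    have : conj (B.u p.1 p.2 m) = 0 := e1.symm
    exact (map_eq_zero _).mp this
  have key2 : ∀ᵐ p ∂(fib B.ρ B.n), ∀ m : ℤ, p ∈ S → B.u p.1 p.2 m = 0 := ae_all_iff.mpr key
  filter_upwards [fib_ae B.measurable_n key2, B.one_le_n] with E hE hn
  by_contra hcon
  have h1 : 1 ≤ |E| := by
    by_contra hlt
    exact hcon (abs_lt.mp (not_le.mp hlt))
  have hlt : ((0 : ℕ) : ℕ∞) < B.n E := by
    rw [Nat.cast_zero]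
    exact lt_of_lt_of_le (by norm_num) hn
  have h2 := (B.linInd E).ne_zero ⟨0, hlt⟩
  apply h2
  funext m
  exact hE 0 hlt m h1

end H987Cav
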