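import Pool.Agent.H987Cav.Sol

/-!
The choice of the parameters: the typewriter of resonances.
-/

open Complex MeasureTheory ComplexConjugate Metric Submodule Set Filter Topology
open scoped Real ENNReal

namespace H987Cav

/-- Abel–Dini: widths `e k` with divergent sum, much smaller than `w (2k+1)`. -/
lemma exists_widths (w : ℕ → ℝ) (hw : ∀ m, 0 < w m) (hanti : Antitone w) (hns : ¬ Summable w) :
    ∃ e η : ℕ → ℝ, (∀ k, 0 ≤ e k) ∧ (∀ k, e k ≤ 1) ∧
      (∀ k, e k ≤ w (2 * k + 1) * η k) ∧ (∀ k, 0 < η k) ∧ Tendsto η atTop (𝓝 0) ∧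
      (∀ k, 0 < e k → 1 / ((k : ℝ) + 1) ^ 2 ≤ e k) ∧
      Tendsto (fun n => ∑ k ∈ Finset.range n, e k) atTop atTop := by
  set W : ℕ → ℝ := fun k => w (2 * k + 1) with hW
  have hWpos : ∀ k, 0 < W k := fun k => hw _
  have hWns : ¬ Summable W := by
    intro hs
    apply hns
    have h1 : Summable (fun k => w (2 * (k + 1))) := by
      refine Summable.of_nonneg_of_le (fun k => (hw _).le) (fun k => ?_) hs
      exact hanti (by omega)
    have h2 : Summable (fun k => w (2 * k)) := (summable_nat_add_iff 1).mp h1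
    exact (h2.hasSum.even_add_odd hs.hasSum).summable
  set T : ℕ → ℝ := fun n => ∑ k ∈ Finset.range n, W k with hT
  have hTtop : Tendsto T atTop atTop :=
    (not_summable_iff_tendsto_nat_atTop_of_nonneg (fun k => (hWpos k).le)).mp hWns
  have hT0 : ∀ n, 0 ≤ T n := fun n => Finset.sum_nonneg fun k _ => (hWpos k).le
  have hTs : ∀ n, T (n + 1) = T n + W n := fun n => Finset.sum_range_succ _ _
  have hw0 : 0 < 1 + w 0 := by linarith [hw 0]
  set η : ℕ → ℝ := fun k => 1 / ((1 + w 0) * √(1 + T (k + 1))) with hη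
  have hsq : ∀ n, 1 ≤ √(1 + T n) := fun n => by
    rw [Real.one_le_sqrt]; linarith [hT0 n]
  have hηpos : ∀ k, 0 < η k := fun k => by
    have := hsq (k + 1)
    simp only [hη]; positivity
  set δ : ℕ → ℝ := fun k => W k * η k with hδ
  have hδpos : ∀ k, 0 < δ k := fun k => mul_pos (hWpos k) (hηpos k)
  have hδ1 : ∀ k, δ k ≤ 1 := fun k => by
    have h1 : W k ≤ w 0 := hanti (Nat.zero_le _)
    have h2 := hsq (k + 1)
    simp only [hδ, hη]
    rw [mul_one_div, div_le_one (by positivity)]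
    nlinarith [hw 0]
  have htel : ∀ n, √(1 + T n) ≤ 1 + (1 + w 0) * ∑ k ∈ Finset.range n, δ k := by
    intro n
    induction n with
    | zero => simp [hT]
    | succ n ih =>
      rw [Finset.sum_range_succ, mul_add, ← add_assoc]
      have h1 : √(1 + T (n + 1)) ≤ √(1 + T n) + (1 + w 0) * δ n := by
        have h2 : (1 + w 0) * δ n = W n / √(1 + T (n + 1)) := by
          simp only [hδ, hη]
          field_simp
        rw [h2]
        have h3 := hsq (n + 1)
        have h4 := hsq n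
        have h5 : √(1 + T n) ≤ √(1 + T (n + 1)) := by
          apply Real.sqrt_le_sqrt; rw [hTs]; linarith [hWpos n]
        have h6 : √(1 + T (n + 1)) ^ 2 = 1 + T (n + 1) := Real.sq_sqrt (by linarith [hT0 (n + 1)])
        have h7 : √(1 + T n) ^ 2 = 1 + T n := Real.sq_sqrt (by linarith [hT0 n])
        have h8 : W n = (√(1 + T (n + 1)) - √(1 + T n)) * (√(1 + T (n + 1)) + √(1 + T n)) := by
          have := hTs n
          nlinarith
        have h9 : √(1 + T (n + 1)) - √(1 + T n) ≤ W n / √(1 + T (n + 1)) := by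
          rw [le_div_iff₀ (by linarith)]
          rw [h8]
          apply mul_le_mul_of_nonneg_left _ (by linarith)
          linarith
        linarith
      linarith
  have hδns : ¬ Summable δ := by
    intro hs
    have h1 : ∀ n, T n ≤ (1 + (1 + w 0) * ∑' k, δ k) ^ 2 := fun n => by
      have h2 : ∑ k ∈ Finset.range n, δ k ≤ ∑' k, δ k :=
        hs.sum_le_tsum _ (fun k _ => (hδpos k).le)
      have h3 : √(1 + T n) ≤ 1 + (1 + w 0) * ∑' k, δ k := by
        refine (htel n).trans ?_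
        gcongr
      have h4 : √(1 + T n) ^ 2 = 1 + T n := Real.sq_sqrt (by linarith [hT0 n])
      have h5 := hsq n
      nlinarith
    obtain ⟨n, hn⟩ := (hTtop.eventually (eventually_gt_atTop ((1 + (1 + w 0) * ∑' k, δ k) ^ 2))).exists
    exact absurd (h1 n) (not_le.mpr hn)
  classical
  set e : ℕ → ℝ := fun k => if 1 / ((k : ℝ) + 1) ^ 2 ≤ δ k then δ k else 0 with he
  have he0 : ∀ k, 0 ≤ e k := fun k => by
    simp only [he]; split_ifs
    · exact (hδpos k).le
    · exact le_rfl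
  have hens : ¬ Summable e := by
    intro hs
    apply hδns
    have h1 : Summable (fun k : ℕ => 1 / ((k : ℝ) + 1) ^ 2) := by
      have := (summable_nat_add_iff 1).mpr (Real.summable_one_div_nat_pow (p := 2).mpr (by norm_num))
      simpa using this
    refine Summable.of_nonneg_of_le (fun k => (hδpos k).le) (fun k => ?_) (hs.add h1)
    simp only [he]
    split_ifs with hk
    · have : 0 ≤ 1 / ((k : ℝ) + 1) ^ 2 := by positivity
      linarith
    · linarith
  refine ⟨e, η, he0, ?_, ?_, hηpos, ?_, ?_, ?_⟩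
  · intro k
    simp only [he]; split_ifs
    · exact hδ1 k
    · exact zero_le_one
  · intro k
    simp only [he]; split_ifs
    · exact le_rfl
    · exact (hδpos k).le
  · have h1 : Tendsto (fun k => (1 + w 0) * √(1 + T (k + 1))) atTop atTop := by
      apply Tendsto.const_mul_atTop hw0
      apply Real.tendsto_sqrt_atTop.comp
      apply tendsto_atTop_add_const_left
      exact hTtop.comp (tendsto_add_atTop_nat 1)
    have h2 := h1.inv_tendsto_atTop
    refine h2.congr fun k => ?_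
    simp only [hη, Pi.inv_apply, one_div]
  · intro k hk
    simp only [he] at hk ⊢
    split_ifs at hk ⊢ with hk2
    · exact hk2
    · exact absurd hk (lt_irrefl _)
  · exact (not_summable_iff_tendsto_nat_atTop_of_nonneg he0).mp hens

/-- the typewriter passes over every angle infinitely often -/
lemma typewriter (e : ℕ → ℝ) (he0 : ∀ k, 0 ≤ e k)
    (htop : Tendsto (fun n => ∑ k ∈ Finset.range n, e k) atTop atTop) (θ : ℝ) (N : ℕ) :
    ∃ k, N ≤ k ∧ 0 < e k ∧ ∃ m : ℤ,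
      |θ + m * (2 * π) - ∑ j ∈ Finset.range k, e j| ≤ e k := by
  set Φ : ℕ → ℝ := fun n => ∑ k ∈ Finset.range n, e k with hΦ
  have hmono : Monotone Φ := by
    apply monotone_nat_of_le_succ
    intro n
    simp only [hΦ]
    rw [Finset.sum_range_succ]
    linarith [he0 n]
  obtain ⟨m, hm⟩ := exists_nat_gt ((Φ N - θ) / (2 * π))
  have hm2 : Φ N ≤ θ + (m : ℤ) * (2 * π) := by
    rw [div_lt_iff₀ Real.two_pi_pos] at hm
    push_cast
    linarith
  set X : ℝ := θ + (m : ℤ) * (2 * π) with hX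
  have hex : ∃ n, X < Φ n := (htop.eventually (eventually_gt_atTop X)).exists
  classical
  have hspec := Nat.find_spec hex
  have hmin := fun j (hj : j < Nat.find hex) => Nat.find_min hex hj
  set n := Nat.find hex with hn
  have hNn : N < n := by
    by_contra hcon
    have := hmono (not_lt.mp hcon)
    linarith
  obtain ⟨k, hk⟩ : ∃ k, n = k + 1 := ⟨n - 1, by omega⟩
  have h1 : Φ k ≤ X := not_lt.mp (hmin k (by omega))
  have h2 : X < Φ k + e k := by
    have : Φ n = Φ k + e k := by rw [hk]; exact Finset.sum_range_succ _ _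
    rw [← this]; exact hspec
  refine ⟨k, by omega, by linarith, m, ?_⟩
  rw [abs_le]
  constructor
  · linarith [he0 k]
  · linarith

/-- cavity parameters -/
noncomputable def rr (e : ℕ → ℝ) (k : ℤ) : ℝ :=
  if 0 ≤ k ∧ 0 < e k.toNat then 1 - e k.toNat else 0

/-- phases -/
noncomputable def ph (e : ℕ → ℝ) (k : ℤ) : ℂ :=
  exp ((∑ j ∈ Finset.range k.toNat, e j : ℝ) * I)

lemma good (e : ℕ → ℝ) (he1 : ∀ k, e k ≤ 1) : Good (rr e) (ph e) where
  r0 := by
    intro k; unfold rr; split_ifs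
    · linarith [he1 k.toNat]
    · exact le_rfl
  r1 := by
    intro k; unfold rr; split_ifs with h
    · linarith [h.2]
    · exact zero_lt_one
  an := by
    intro k; unfold ph; exact Complex.norm_exp_ofReal_mul_I _

lemma one_sub_r {r : ℤ → ℝ} {a : ℤ → ℂ} (h : Good r a) (k : ℤ) {z : ℂ} (hz : ‖z‖ = 1) :
    1 - r k ≤ ‖1 - r k * (conj (a k) * z)‖ := by
  have h1 := norm_sub_norm_le (1 : ℂ) (r k * (conj (a k) * z))
  rw [norm_one, norm_mul, norm_az h, hz, mul_one, Complex.norm_real, Real.norm_eq_abs,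
    abs_of_nonneg (h.r0 k)] at h1
  exact h1

lemma norm_gf {r : ℤ → ℝ} {a : ℤ → ℂ} (h : Good r a) (k : ℤ) {z : ℂ} (hz : ‖z‖ = 1) :
    ‖gf r a k z‖ = sf r k / ‖1 - r k * (conj (a k) * z)‖ := by
  unfold gf
  rw [norm_div, norm_mul, norm_az h, hz, mul_one, Complex.norm_real, Real.norm_eq_abs,
    abs_of_pos (sf_pos h k)]

lemma norm_ff_odd {r : ℤ → ℝ} {a : ℤ → ℂ} (h : Good r a) (k : ℤ) {z : ℂ} (hz : ‖z‖ = 1) :
    ‖ff r a (2 * k + 1) z‖ = sf r k / ‖1 - r k * (conj (a k) * z)‖ := by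
  rw [ff_odd, norm_mul, norm_Pf h k hz, one_mul, norm_gf h k hz]

/-- the growth bound (a), with a uniform constant -/
lemma growth_ff (e : ℕ → ℝ) (he1 : ∀ k, e k ≤ 1)
    (hbig : ∀ k, 0 < e k → 1 / ((k : ℝ) + 1) ^ 2 ≤ e k) (m : ℤ) (z : ℂ) (hz : ‖z‖ = 1) :
    ‖ff (rr e) (ph e) m z‖ ≤ 1 * (1 + |(m : ℝ)|) := by
  have h := good e he1
  rw [one_mul]
  rcases Int.even_or_odd' m with ⟨k, hk | hk⟩
  · rw [hk, ff_even, norm_Pf h k hz]
    linarith [abs_nonneg (((2 * k : ℤ)) : ℝ)]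
  · subst hk
    rw [norm_ff_odd h k hz]
    have h1 := one_sub_r h k hz
    have h2 : 0 < 1 - rr e k := by linarith [h.r1 k]
    have h3 : sf (rr e) k / ‖1 - (rr e k : ℂ) * (conj (ph e k) * z)‖ ≤ sf (rr e) k / (1 - rr e k) :=
      div_le_div_of_nonneg_left (sf_pos h k).le h2 h1
    refine h3.trans ?_
    by_cases hc : 0 ≤ k ∧ 0 < e k.toNat
    · have hr : rr e k = 1 - e k.toNat := by unfold rr; rw [if_pos hc]
      have h4 := hbig _ hc.2
      obtain ⟨n, rfl⟩ := Int.eq_ofNat_of_zero_le hc.1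
      rw [Int.toNat_natCast] at hr h4 hc
      have hkk : |((2 * (n : ℤ) + 1 : ℤ) : ℝ)| = 2 * (n : ℝ) + 1 := by
        push_cast
        rw [abs_of_nonneg (by positivity)]
      rw [hkk]
      have hs := sf_sq h (n : ℤ)
      rw [div_le_iff₀ h2]
      apply le_of_sq_le_sq _ (by positivity)
      rw [hs, hr]
      have h5 : 1 ≤ e n * ((n : ℝ) + 1) ^ 2 := by
        rw [div_le_iff₀ (by positivity)] at h4; exact h4
      have h6 := he1 n
      have h7 := hc.2
      nlinarith [mul_pos h7 h7, mul_nonneg h7.le (sub_nonneg.mpr h5)]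
    · have hr : rr e k = 0 := by unfold rr; rw [if_neg hc]
      rw [hr, sub_zero, div_one]
      have := sf_le h k
      linarith [abs_nonneg ((2 * k + 1 : ℤ) : ℝ)]

lemma norm_D_le (e : ℕ → ℝ) (he1 : ∀ k, e k ≤ 1) {z : ℂ} (hz : ‖z‖ = 1) (k : ℕ) (hk : 0 < e k)
    (m : ℤ) (hm : |z.arg + m * (2 * π) - ∑ j ∈ Finset.range k, e j| ≤ e k) :
    ‖1 - (rr e k : ℂ) * (conj (ph e k) * z)‖ ≤ 2 * e k := by
  have hr : rr e (k : ℤ) = 1 - e k := by
    unfold rr; rw [if_pos ⟨Int.natCast_nonneg k, by simpa using hk⟩]; simp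
  set Φ : ℝ := ∑ j ∈ Finset.range k, e j with hΦ
  set x : ℝ := z.arg + m * (2 * π) - Φ with hx
  have hu : conj (ph e k) * z = exp (I * x) := by
    have h1 : z = exp (z.arg * I) := by
      have := Complex.norm_mul_exp_arg_mul_I z
      rw [hz] at this
      simpa using this.symm
    have h2 : conj (ph e (k : ℤ)) = exp (-(Φ * I)) := by
      unfold ph
      rw [← Complex.exp_conj]
      congr 1
      simp [hΦ]
    rw [h2]
    conv_lhs => rw [h1]
    rw [← Complex.exp_add]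
    have h3 : I * x = (-(Φ * I) + z.arg * I) + m * (2 * π * I) := by
      rw [hx]; push_cast; ring
    rw [h3, Complex.exp_add (-(Φ * I) + z.arg * I), Complex.exp_int_mul_two_pi_mul_I, mul_one]
  rw [hu]
  have h4 : 1 - (rr e (k : ℤ) : ℂ) * exp (I * x) =
      (e k : ℂ) - (rr e (k : ℤ) : ℂ) * (exp (I * x) - 1) := by
    rw [hr]; push_cast; ring
  rw [h4]
  calc ‖(e k : ℂ) - (rr e (k : ℤ) : ℂ) * (exp (I * x) - 1)‖
      ≤ ‖(e k : ℂ)‖ + ‖(rr e (k : ℤ) : ℂ) * (exp (I * x) - 1)‖ := norm_sub_le _ _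
    _ ≤ e k + 1 * e k := by
        gcongr
        · rw [Complex.norm_real, Real.norm_eq_abs, abs_of_pos hk]
        · rw [norm_mul]
          apply mul_le_mul _ _ (norm_nonneg _) zero_le_one
          · rw [Complex.norm_real, Real.norm_eq_abs, hr, abs_le]
            constructor <;> linarith [he1 k]
          · exact (Real.norm_exp_I_mul_ofReal_sub_one_le).trans hm
    _ = 2 * e k := by ring

lemma unbdd (w : ℕ → ℝ) (hw : ∀ m, 0 < w m) (hanti : Antitone w) (e η : ℕ → ℝ)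
    (he0 : ∀ k, 0 ≤ e k) (he1 : ∀ k, e k ≤ 1) (hew : ∀ k, e k ≤ w (2 * k + 1) * η k)
    (hη : ∀ k, 0 < η k) (hη0 : Tendsto η atTop (𝓝 0))
    (htop : Tendsto (fun n => ∑ k ∈ Finset.range n, e k) atTop atTop)
    {z z' : ℂ} (hz : ‖z‖ = 1) (hz' : ‖z'‖ = 1) (hne : z ≠ z') (α β : ℂ) (hα : α ≠ 0) :
    ¬ BddAbove (range fun m : ℤ => w m.natAbs *
      ‖α * ff (rr e) (ph e) m z + β * ff (rr e) (ph e) m z'‖ ^ 2) := by
  rintro ⟨M, hM⟩
  have hM' : ∀ m : ℤ, w m.natAbs *
      ‖α * ff (rr e) (ph e) m z + β * ff (rr e) (ph e) m z'‖ ^ 2 ≤ M := fun m => hM ⟨m, rfl⟩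
  have h := good e he1
  set d : ℝ := ‖z - z'‖ with hd
  have hd0 : 0 < d := norm_pos_iff.mpr (sub_ne_zero.mpr hne)
  have hα0 : 0 < ‖α‖ := norm_pos_iff.mpr hα
  have hw0 := hw 0
  set M' : ℝ := 2 * M + 8 * w 0 * ‖β‖ ^ 2 / d ^ 2 with hM'def
  have hM0 : 0 ≤ M := le_trans (mul_nonneg (hw _).le (by positivity)) (hM' 0)
  have hM'0 : 0 ≤ M' := by positivity
  set c : ℝ := min (‖α‖ ^ 2 / (4 * (M' + 1))) (min (1 / (4 * w 0)) (d / (16 * w 0))) with hc
  have hc0 : 0 < c := by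
    rw [hc]
    refine lt_min (by positivity) (lt_min (by positivity) (by positivity))
  obtain ⟨N, hN⟩ := eventually_atTop.mp (hη0.eventually (gt_mem_nhds hc0))
  obtain ⟨k, hkN, hk0, m, hm⟩ := typewriter e he0 htop z.arg N
  have hηk := hN k hkN
  have hη1 : η k < ‖α‖ ^ 2 / (4 * (M' + 1)) := lt_of_lt_of_le hηk (min_le_left _ _)
  have hη2 : η k < 1 / (4 * w 0) :=
    lt_of_lt_of_le hηk ((min_le_right _ _).trans (min_le_left _ _))
  have hη3 : η k < d / (16 * w 0) :=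
    lt_of_lt_of_le hηk ((min_le_right _ _).trans (min_le_right _ _))
  have hW : w (2 * k + 1) ≤ w 0 := hanti (Nat.zero_le _)
  have hWpos := hw (2 * k + 1)
  have hηpos := hη k
  have hek : e k ≤ w 0 * η k := (hew k).trans (by gcongr)
  have he4 : 4 * e k ≤ 1 := by
    rw [lt_div_iff₀ (by positivity)] at hη2
    nlinarith
  have he16 : 16 * e k ≤ d := by
    rw [lt_div_iff₀ (by positivity)] at hη3
    nlinarith
  have hD := norm_D_le e he1 hz k hk0 m hm
  have hr : rr e (k : ℤ) = 1 - e k := by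
    unfold rr; rw [if_pos ⟨Int.natCast_nonneg k, by simpa using hk0⟩]; simp
  have hD' : d / 2 ≤ ‖1 - (rr e k : ℂ) * (conj (ph e k) * z')‖ := by
    have h1 : (rr e k : ℂ) * (conj (ph e k) * (z - z')) =
        (1 - (rr e k : ℂ) * (conj (ph e k) * z')) - (1 - (rr e k : ℂ) * (conj (ph e k) * z)) := by
      ring
    have h2 : ‖(rr e k : ℂ) * (conj (ph e k) * (z - z'))‖ = (1 - e k) * d := by
      rw [norm_mul, norm_az h, Complex.norm_real, Real.norm_eq_abs, hr, abs_of_nonneg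
        (by linarith [he1 k])]
    have h3 := norm_sub_le (1 - (rr e k : ℂ) * (conj (ph e k) * z'))
      (1 - (rr e k : ℂ) * (conj (ph e k) * z))
    rw [← h1, h2] at h3
    nlinarith
  have hDpos : 0 < ‖1 - (rr e k : ℂ) * (conj (ph e k) * z)‖ :=
    norm_pos_iff.mpr (den_ne h k hz.le)
  have hs := sf_sq h (k : ℤ)
  have hsp := sf_pos h (k : ℤ)
  have hs1 := sf_le h (k : ℤ)
  set x : ℝ := ‖ff (rr e) (ph e) (2 * k + 1) z‖ with hx
  set y : ℝ := ‖ff (rr e) (ph e) (2 * k + 1) z'‖ with hy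
  have hxeq : x * ‖1 - (rr e k : ℂ) * (conj (ph e k) * z)‖ = sf (rr e) k := by
    rw [hx, norm_ff_odd h k hz]; exact div_mul_cancel₀ _ hDpos.ne'
  have hx0 : 0 ≤ x := norm_nonneg _
  have hy0 : 0 ≤ y := norm_nonneg _
  have hx2 : 1 ≤ 4 * e k * x ^ 2 := by
    have h1 : sf (rr e) k ≤ x * (2 * e k) := by
      rw [← hxeq]; gcongr
    have h2 : e k ≤ sf (rr e) k ^ 2 := by
      rw [hs, hr]; nlinarith
    have h3 : sf (rr e) k ^ 2 ≤ (x * (2 * e k)) ^ 2 := by gcongr
    have h4 : e k * 1 ≤ e k * (4 * e k * x ^ 2) := by nlinarith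
    exact le_of_mul_le_mul_left h4 hk0
  have hyle : y ≤ 2 / d := by
    rw [hy, norm_ff_odd h k hz', div_le_div_iff₀ (by linarith) hd0]
    nlinarith
  set V : ℝ := ‖α * ff (rr e) (ph e) (2 * k + 1) z + β * ff (rr e) (ph e) (2 * k + 1) z'‖ with hV
  have hV0 : 0 ≤ V := norm_nonneg _
  have hbound : w (2 * k + 1) * V ^ 2 ≤ M := by
    have := hM' (2 * k + 1)
    rwa [show (2 * (k : ℤ) + 1).natAbs = 2 * k + 1 by omega] at this
  have htri : ‖α‖ * x ≤ V + ‖β‖ * y := by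
    rw [hx, hy, ← norm_mul, ← norm_mul, hV]
    have := norm_sub_le (α * ff (rr e) (ph e) (2 * k + 1) z + β * ff (rr e) (ph e) (2 * k + 1) z')
      (β * ff (rr e) (ph e) (2 * k + 1) z')
    rwa [add_sub_cancel_right] at this
  have hsq : ‖α‖ ^ 2 * x ^ 2 ≤ 2 * V ^ 2 + 2 * (‖β‖ ^ 2 * y ^ 2) := by
    have h1 : (‖α‖ * x) ^ 2 ≤ (V + ‖β‖ * y) ^ 2 := by gcongr
    nlinarith [sq_nonneg (V - ‖β‖ * y)]
  have hy2 : y ^ 2 ≤ 4 / d ^ 2 := by
    have : y ^ 2 ≤ (2 / d) ^ 2 := by gcongr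
    rw [div_pow] at this
    norm_num at this
    exact this
  have hfin : w (2 * k + 1) * (‖α‖ ^ 2 * x ^ 2) ≤ M' := by
    calc w (2 * k + 1) * (‖α‖ ^ 2 * x ^ 2)
        ≤ w (2 * k + 1) * (2 * V ^ 2 + 2 * (‖β‖ ^ 2 * y ^ 2)) := by gcongr
      _ = 2 * (w (2 * k + 1) * V ^ 2) + 2 * w (2 * k + 1) * (‖β‖ ^ 2 * y ^ 2) := by ring
      _ ≤ 2 * M + 2 * w 0 * (‖β‖ ^ 2 * (4 / d ^ 2)) := by gcongr
      _ = M' := by rw [hM'def]; ring
  -- contradiction
  have h5 : ‖α‖ ^ 2 ≤ 4 * η k * (w (2 * k + 1) * (‖α‖ ^ 2 * x ^ 2)) := by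
    calc ‖α‖ ^ 2 = ‖α‖ ^ 2 * 1 := by ring
      _ ≤ ‖α‖ ^ 2 * (4 * e k * x ^ 2) := by gcongr
      _ ≤ ‖α‖ ^ 2 * (4 * (w (2 * k + 1) * η k) * x ^ 2) := by gcongr; exact hew k
      _ = _ := by ring
  have h6 : ‖α‖ ^ 2 ≤ 4 * η k * M' := h5.trans (by gcongr)
  rw [lt_div_iff₀ (by positivity)] at hη1
  nlinarith

end H987Cav
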