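import Pool.Agent.H987Cav.Statement
import Pool.Agent.H987Cav.Spike
import Pool.Agent.H987Cav.Gen

/-!
Conversion between the definitions of `Defs.lean` and those of `Statement.lean`.
-/

open MeasureTheory ComplexConjugate Set
open scoped ENNReal

namespace H987Cav

/-- the same operator -/
noncomputable def toOp (A : St.Op) : Hil →L[ℂ] Hil := A

/-- the same operator -/
noncomputable def ofOp (A : Hil →L[ℂ] Hil) : St.Op := A

lemma del_eq (m : ℤ) : (St.del m : Hil) = del m := rfl

lemma elt_eq (A : St.Op) (i j : ℤ) : St.elt A i j = elt (toOp A) i j := rfl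

lemma formal_iff (A : St.Op) (E : ℝ) (v : ℤ → ℂ) :
    St.FormalEig A E v ↔ FormalEig (toOp A) (E : ℂ) v := Iff.rfl

/-- the same expansion -/
noncomputable def toBGK {A : St.Op} (B : St.BGK A) : BGK (toOp A) where
  ρ := B.ρ
  n := B.n
  measurable_n := B.measurable_n
  one_le_n := B.one_le_n
  n_eq_zero := B.n_eq_zero
  u := B.u
  linInd := B.linInd
  growth := B.growth
  eigen := B.eigen
  U := B.U
  U_del := B.U_del
  U_mul := B.U_mul

/-- the same expansion -/
noncomputable def ofBGK {A : St.Op} (B : BGK (toOp A)) : St.BGK A where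
  ρ := B.ρ
  n := B.n
  measurable_n := B.measurable_n
  one_le_n := B.one_le_n
  n_eq_zero := B.n_eq_zero
  u := B.u
  linInd := B.linInd
  growth := B.growth
  eigen := B.eigen
  U := B.U
  U_del := B.U_del
  U_mul := B.U_mul

end H987Cav
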