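import Mathlib

/-!
Chain of all-pass cavities: the explicit functions `ff r a m` on the circle, and the
relations that express multiplication by `z` and `z⁻¹` as banded matrices.
-/

open Complex MeasureTheory ComplexConjugate
open scoped Real

namespace H987Cav

/-- the all-pass factor of cavity `k` -/
noncomputable def bf (r : ℤ → ℝ) (a : ℤ → ℂ) (k : ℤ) (z : ℂ) : ℂ :=
  z * (conj (a k) * z - r k) / (1 - r k * (conj (a k) * z))

/-- coupling constant -/
noncomputable def sf (r : ℤ → ℝ) (k : ℤ) : ℝ := √(1 - r k ^ 2)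

/-- the cavity amplitude relative to the transmitted one -/
noncomputable def gf (r : ℤ → ℝ) (a : ℤ → ℂ) (k : ℤ) (z : ℂ) : ℂ :=
  sf r k * (conj (a k) * z) / (1 - r k * (conj (a k) * z))

/-- the transmitted amplitude -/
noncomputable def Pf (r : ℤ → ℝ) (a : ℤ → ℂ) (k : ℤ) (z : ℂ) : ℂ :=
  (∏ i ∈ Finset.Ico 0 k, bf r a i z) * (∏ i ∈ Finset.Ico k 0, bf r a i z)⁻¹

/-- the generalized eigenfunction at site `m` -/
noncomputable def ff (r : ℤ → ℝ) (a : ℤ → ℂ) (m : ℤ) (z : ℂ) : ℂ :=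
  if m % 2 = 0 then Pf r a (m / 2) z else Pf r a (m / 2) z * gf r a (m / 2) z

/-- admissible parameters -/
structure Good (r : ℤ → ℝ) (a : ℤ → ℂ) : Prop where
  r0 : ∀ k, 0 ≤ r k
  r1 : ∀ k, r k < 1
  an : ∀ k, ‖a k‖ = 1

variable {r : ℤ → ℝ} {a : ℤ → ℂ}

lemma ff_even (k : ℤ) (z : ℂ) : ff r a (2 * k) z = Pf r a k z := by
  unfold ff
  rw [if_pos (by omega), show (2 * k) / 2 = k by omega]

lemma ff_odd (k : ℤ) (z : ℂ) : ff r a (2 * k + 1) z = Pf r a k z * gf r a k z := by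
  unfold ff
  rw [if_neg (by omega), show (2 * k + 1) / 2 = k by omega]

lemma sf_sq (h : Good r a) (k : ℤ) : (sf r k : ℝ) ^ 2 = 1 - r k ^ 2 := by
  unfold sf
  rw [Real.sq_sqrt]
  nlinarith [h.r0 k, h.r1 k]

lemma sf_pos (h : Good r a) (k : ℤ) : 0 < sf r k := by
  unfold sf
  apply Real.sqrt_pos.mpr
  nlinarith [h.r0 k, h.r1 k]

lemma sf_le (h : Good r a) (k : ℤ) : sf r k ≤ 1 := by
  have := sf_sq h k
  have := sf_pos h k
  nlinarith [h.r0 k, h.r1 k]

lemma sf_sqC (h : Good r a) (k : ℤ) : (sf r k : ℂ) * sf r k = 1 - r k * r k := by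
  have := sf_sq h k
  rw [sq, sq] at this
  exact_mod_cast this

lemma aa (h : Good r a) (k : ℤ) : a k * conj (a k) = 1 := by
  rw [Complex.mul_conj, Complex.normSq_eq_norm_sq, h.an k]; simp

lemma norm_az (h : Good r a) (k : ℤ) (z : ℂ) : ‖conj (a k) * z‖ = ‖z‖ := by
  rw [norm_mul, RCLike.norm_conj, h.an k, one_mul]

lemma den_ne (h : Good r a) (k : ℤ) {z : ℂ} (hz : ‖z‖ ≤ 1) :
    1 - r k * (conj (a k) * z) ≠ 0 := by
  intro h0
  have h1 : (1 : ℂ) = r k * (conj (a k) * z) := by linear_combination h0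
  have h2 : (1 : ℝ) = r k * ‖z‖ := by
    have := congrArg norm h1
    rw [norm_one, norm_mul, norm_az h, Complex.norm_real, Real.norm_eq_abs, abs_of_nonneg (h.r0 k)]
      at this
    exact this
  nlinarith [h.r0 k, h.r1 k, norm_nonneg z]

lemma zne {z : ℂ} (hz : ‖z‖ = 1) : z ≠ 0 := by
  intro h; rw [h, norm_zero] at hz; norm_num at hz

lemma zinv {z : ℂ} (hz : ‖z‖ = 1) : z⁻¹ = conj z := by
  rw [Complex.inv_def, Complex.normSq_eq_norm_sq, hz]; simp

/-- on the circle the numerator and the denominator have the same modulus -/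
lemma num_eq (h : Good r a) (k : ℤ) {z : ℂ} (hz : ‖z‖ = 1) :
    conj (a k) * z - r k = conj (a k) * z * conj (1 - r k * (conj (a k) * z)) := by
  have h1 : z * conj z = 1 := by
    rw [Complex.mul_conj, Complex.normSq_eq_norm_sq, hz]; simp
  have h2 := aa h k
  simp only [map_sub, map_one, map_mul, Complex.conj_ofReal, Complex.conj_conj]
  linear_combination (r k : ℂ) * (a k * conj (a k)) * h1 + (r k : ℂ) * h2

lemma norm_bf (h : Good r a) (k : ℤ) {z : ℂ} (hz : ‖z‖ = 1) : ‖bf r a k z‖ = 1 := by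
  unfold bf
  rw [num_eq h k hz, norm_div, norm_mul, norm_mul, norm_az h, hz, RCLike.norm_conj, one_mul, one_mul,
    div_self]
  exact norm_ne_zero_iff.mpr (den_ne h k hz.le)

lemma bf_ne (h : Good r a) (k : ℤ) {z : ℂ} (hz : ‖z‖ = 1) : bf r a k z ≠ 0 := by
  have := norm_bf h k hz
  intro h0
  rw [h0, norm_zero] at this
  norm_num at this

lemma norm_Pf (h : Good r a) (k : ℤ) {z : ℂ} (hz : ‖z‖ = 1) : ‖Pf r a k z‖ = 1 := by
  unfold Pf
  rw [norm_mul, norm_inv, norm_prod, norm_prod]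
  simp [norm_bf h _ hz]

lemma Pf_ne (h : Good r a) (k : ℤ) {z : ℂ} (hz : ‖z‖ = 1) : Pf r a k z ≠ 0 := by
  have := norm_Pf h k hz
  intro h0
  rw [h0, norm_zero] at this
  norm_num at this

lemma Pf_zero (z : ℂ) : Pf r a 0 z = 1 := by simp [Pf]

lemma Pf_succ (h : Good r a) (k : ℤ) {z : ℂ} (hz : ‖z‖ = 1) :
    Pf r a (k + 1) z = Pf r a k z * bf r a k z := by
  unfold Pf
  rcases le_or_gt 0 k with hk | hk
  · rw [Finset.Ico_eq_empty (by omega : ¬ (k + 1 < 0)), Finset.Ico_eq_empty (by omega : ¬ (k < 0))]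
    have : Finset.Ico 0 (k + 1) = insert k (Finset.Ico 0 k) := by
      ext x; simp only [Finset.mem_Ico, Finset.mem_insert]; omega
    rw [this, Finset.prod_insert (by simp)]
    simp only [Finset.prod_empty, inv_one, mul_one]
    ring
  · rw [Finset.Ico_eq_empty (by omega : ¬ (0 < k + 1)), Finset.Ico_eq_empty (by omega : ¬ (0 < k))]
    have : Finset.Ico k 0 = insert k (Finset.Ico (k + 1) 0) := by
      ext x; simp only [Finset.mem_Ico, Finset.mem_insert]; omega
    rw [this, Finset.prod_insert (by simp)]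
    simp only [Finset.prod_empty, one_mul]
    rw [mul_inv, mul_assoc, mul_comm (∏ i ∈ Finset.Ico (k + 1) 0, bf r a i z)⁻¹, ← mul_assoc,
      inv_mul_cancel₀ (bf_ne h k hz), one_mul]

lemma bf_mul (h : Good r a) (k : ℤ) {z : ℂ} (hz : ‖z‖ ≤ 1) :
    bf r a k z * (1 - r k * (conj (a k) * z)) = z * (conj (a k) * z - r k) := by
  unfold bf
  exact div_mul_cancel₀ _ (den_ne h k hz)

lemma gf_mul (h : Good r a) (k : ℤ) {z : ℂ} (hz : ‖z‖ ≤ 1) :
    gf r a k z * (1 - r k * (conj (a k) * z)) = sf r k * (conj (a k) * z) := by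
  unfold gf
  exact div_mul_cancel₀ _ (den_ne h k hz)

/-- `z P_k = - r_k P_{k+1} + s_k a_k C_k` -/
lemma rel1 (h : Good r a) (k : ℤ) {z : ℂ} (hz : ‖z‖ = 1) :
    z * ff r a (2 * k) z = -(r k : ℂ) * ff r a (2 * k + 2) z
      + (sf r k * a k) * ff r a (2 * k + 1) z := by
  rw [show (2 * k + 2) = 2 * (k + 1) by ring, ff_even, ff_even, ff_odd, Pf_succ h k hz]
  have hd := den_ne h k hz.le
  have hs := sf_sqC h k
  have h2 := aa h k
  have hb := bf_mul h k hz.le
  have hg := gf_mul h k hz.le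
  apply mul_right_cancel₀ hd
  linear_combination (r k * Pf r a k z) * hb - (sf r k * a k * Pf r a k z) * hg
    - (z * Pf r a k z) * hs - (z * Pf r a k z * sf r k * sf r k) * h2

/-- `z C_k = s_k P_{k+1} + r_k a_k C_k` -/
lemma rel2 (h : Good r a) (k : ℤ) {z : ℂ} (hz : ‖z‖ = 1) :
    z * ff r a (2 * k + 1) z = (sf r k : ℂ) * ff r a (2 * k + 2) z
      + (r k * a k) * ff r a (2 * k + 1) z := by
  rw [show (2 * k + 2) = 2 * (k + 1) by ring, ff_even, ff_odd, Pf_succ h k hz]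
  have hd := den_ne h k hz.le
  have hs := sf_sqC h k
  have h2 := aa h k
  have hb := bf_mul h k hz.le
  have hg := gf_mul h k hz.le
  apply mul_right_cancel₀ hd
  linear_combination (z - r k * a k) * Pf r a k z * hg - (sf r k * Pf r a k z) * hb
    - (sf r k * Pf r a k z * r k * z) * h2

/-- `z⁻¹ P_{k+1} = - r_k P_k + s_k C_k` -/
lemma rel3 (h : Good r a) (k : ℤ) {z : ℂ} (hz : ‖z‖ = 1) :
    z⁻¹ * ff r a (2 * k + 2) z = -(r k : ℂ) * ff r a (2 * k) z
      + (sf r k : ℂ) * ff r a (2 * k + 1) z := by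
  rw [show (2 * k + 2) = 2 * (k + 1) by ring, ff_even, ff_even, ff_odd, Pf_succ h k hz]
  have hd := den_ne h k hz.le
  have hs := sf_sqC h k
  have h2 := aa h k
  have hb := bf_mul h k hz.le
  have hg := gf_mul h k hz.le
  have hz0 : z⁻¹ * z = 1 := inv_mul_cancel₀ (zne hz)
  apply mul_right_cancel₀ hd
  linear_combination (z⁻¹ * Pf r a k z) * hb - (sf r k * Pf r a k z) * hg
    + (Pf r a k z * (conj (a k) * z - r k)) * hz0 - (Pf r a k z * conj (a k) * z) * hs

/-- `z⁻¹ C_k = s_k conj a_k P_k + r_k conj a_k C_k` -/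
lemma rel4 (h : Good r a) (k : ℤ) {z : ℂ} (hz : ‖z‖ = 1) :
    z⁻¹ * ff r a (2 * k + 1) z = (sf r k * conj (a k)) * ff r a (2 * k) z
      + (r k * conj (a k)) * ff r a (2 * k + 1) z := by
  rw [ff_even, ff_odd]
  have hd := den_ne h k hz.le
  have hs := sf_sqC h k
  have h2 := aa h k
  have hg := gf_mul h k hz.le
  have hz0 : z⁻¹ * z = 1 := inv_mul_cancel₀ (zne hz)
  apply mul_right_cancel₀ hd
  linear_combination (z⁻¹ - r k * conj (a k)) * Pf r a k z * hg
    + (Pf r a k z * sf r k * conj (a k)) * hz0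

end H987Cav
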