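import Pool.Agent.H987Cav.Meas

/-!
The BGK expansion of the operator `Aop h`.
-/

open Complex MeasureTheory ComplexConjugate Metric Submodule Set
open scoped Real ENNReal

namespace H987Cav

variable {r : ℤ → ℝ} {a : ℤ → ℂ}

lemma ae_fib {P : ℝ × ℕ → Prop} (hP : MeasurableSet {p | P p}) (H : ∀ x, P (Gc x)) :
    ∀ᵐ p ∂(fib rho0 n0), P p := by
  rw [← mp_Gc.map_eq, ae_map_iff measurable_Gc.aemeasurable hP]
  exact Filter.Eventually.of_forall H

lemma Gc_Zc : ∀ᵐ p ∂(fib rho0 n0), Gc (Zc p) = p := by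
  apply ae_fib
  · exact measurableSet_eq_fun (measurable_Gc.comp measurable_Zc) measurable_id
  · intro x; rw [Zc_Gc]

lemma re_Zc : ∀ᵐ p ∂(fib rho0 n0), (zt (Zc p)).re = p.1 := by
  filter_upwards [Gc_Zc] with p hp
  exact congrArg Prod.fst hp

/-- pull back to the fibred spectrum -/
noncomputable def Zpull : Lp ℂ 2 hm →ₗᵢ[ℂ] Lp ℂ 2 (fib rho0 n0) :=
  Lp.compMeasurePreservingₗᵢ ℂ Zc mp_Zc

lemma Zpull_ae (f : Lp ℂ 2 hm) : Zpull f =ᵐ[fib rho0 n0] fun p => f (Zc p) :=
  Lp.coeFn_compMeasurePreserving f mp_Zc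

lemma Zpull_surj : Function.Surjective Zpull := by
  intro g
  refine ⟨Lp.compMeasurePreserving Gc mp_Gc g, ?_⟩
  apply Lp.ext
  have h1 := Lp.coeFn_compMeasurePreserving g mp_Gc
  have h2 := mp_Zc.quasiMeasurePreserving.ae_eq_comp h1
  filter_upwards [Zpull_ae (Lp.compMeasurePreserving Gc mp_Gc g), h2, Gc_Zc] with p h3 h4 h5
  rw [h3]
  simp only [Function.comp] at h4
  rw [h4, h5]

/-- the unitary identification -/
noncomputable def Zeq : Lp ℂ 2 hm ≃ₗᵢ[ℂ] Lp ℂ 2 (fib rho0 n0) :=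
  LinearIsometryEquiv.ofSurjective Zpull Zpull_surj

lemma Zeq_ae (f : Lp ℂ 2 hm) : Zeq f =ᵐ[fib rho0 n0] fun p => f (Zc p) := Zpull_ae f

/-- the generalized eigenfunctions -/
noncomputable def u0 (r : ℤ → ℝ) (a : ℤ → ℂ) (E : ℝ) (α : ℕ) (m : ℤ) : ℂ :=
  ff r a m (zt (Zc (E, α)))

lemma zt_Zc0 {E : ℝ} (hE : E ∈ Ioo (-1 : ℝ) 1) : zt (Zc (E, 0)) = ⟨E, √(1 - E ^ 2)⟩ := by
  unfold Zc
  simp only [if_true]
  apply Complex.ext
  · rw [re_zt, Real.cos_arccos hE.1.le hE.2.le]
  · rw [im_zt, Real.sin_arccos]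

lemma zt_Zc1 {E : ℝ} (hE : E ∈ Ioo (-1 : ℝ) 1) {α : ℕ} (hα : α ≠ 0) :
    zt (Zc (E, α)) = ⟨E, -√(1 - E ^ 2)⟩ := by
  unfold Zc
  simp only [hα, if_false]
  apply Complex.ext
  · rw [re_zt, Real.cos_neg, Real.cos_arccos hE.1.le hE.2.le]
  · rw [im_zt, Real.sin_neg, Real.sin_arccos]

lemma re_Zc' {E : ℝ} (hE : E ∈ Ioo (-1 : ℝ) 1) (α : ℕ) : (zt (Zc (E, α))).re = E := by
  by_cases h : α = 0
  · rw [h, zt_Zc0 hE]
  · rw [zt_Zc1 hE h]

lemma sqrt_pos' {E : ℝ} (hE : E ∈ Ioo (-1 : ℝ) 1) : 0 < √(1 - E ^ 2) := by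
  apply Real.sqrt_pos.mpr
  nlinarith [hE.1, hE.2]

/-- linear independence of the two solutions -/
lemma indep_aux (h : Good r a) {z z' : ℂ} (hz : ‖z‖ = 1) (hz' : ‖z'‖ = 1) (hne : z ≠ z')
    (α β : ℂ) (H : ∀ m, α * ff r a m z + β * ff r a m z' = 0) : α = 0 ∧ β = 0 := by
  have e0 := H 0
  rw [show (0 : ℤ) = 2 * 0 by ring, ff_even, ff_even, Pf_zero, Pf_zero] at e0
  have r1 := rel1 h 0 hz
  have r2 := rel1 h 0 hz'
  have e1 := H (2 * 0 + 1)
  have e2 := H (2 * 0 + 2)
  have e3 : α * (z * ff r a (2 * 0) z) + β * (z' * ff r a (2 * 0) z') = 0 := by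
    rw [r1, r2]
    linear_combination (-(r 0 : ℂ)) * e2 + (sf r 0 * a 0) * e1
  rw [ff_even, ff_even, Pf_zero, Pf_zero] at e3
  have hd : z - z' ≠ 0 := sub_ne_zero.mpr hne
  constructor
  · apply mul_right_cancel₀ hd
    linear_combination e3 - z' * e0
  · apply mul_right_cancel₀ hd
    linear_combination z * e0 - e3

lemma n0_of_lt {E : ℝ} {α : ℕ} (h : (α : ℕ∞) < n0 E) : E ∈ Ioo (-1 : ℝ) 1 ∧ α < 2 := by
  unfold n0 at h
  split_ifs at h with hE
  · exact ⟨hE, by exact_mod_cast h⟩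
  · simp at h

lemma n0_in {E : ℝ} (hE : E ∈ Ioo (-1 : ℝ) 1) : n0 E = 2 := by
  unfold n0; rw [if_pos hE]

lemma linInd_u0 (h : Good r a) (E : ℝ) :
    LinearIndependent ℂ (fun α : {α : ℕ // (α : ℕ∞) < n0 E} => u0 r a E α) := by
  by_cases hE : E ∈ Ioo (-1 : ℝ) 1
  · rw [linearIndependent_iff']
    intro s g hg
    have h0 : ((0 : ℕ) : ℕ∞) < n0 E := by rw [n0_in hE]; norm_num
    have h1 : ((1 : ℕ) : ℕ∞) < n0 E := by rw [n0_in hE]; norm_num
    set x0 : {α : ℕ // (α : ℕ∞) < n0 E} := ⟨0, h0⟩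
    set x1 : {α : ℕ // (α : ℕ∞) < n0 E} := ⟨1, h1⟩
    have hx : x0 ≠ x1 := by
      intro hh; have := congrArg Subtype.val hh; simp [x0, x1] at this
    have hall : ∀ x : {α : ℕ // (α : ℕ∞) < n0 E}, x = x0 ∨ x = x1 := by
      intro x
      have := (n0_of_lt x.2).2
      rcases (by omega : x.1 = 0 ∨ x.1 = 1) with h | h
      · left; exact Subtype.ext h
      · right; exact Subtype.ext h
    classical
    set g' : {α : ℕ // (α : ℕ∞) < n0 E} → ℂ := fun x => if x ∈ s then g x else 0 with hg'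
    have hsum : ∀ m, g' x0 * u0 r a E 0 m + g' x1 * u0 r a E 1 m = 0 := by
      intro m
      have h3 := congrFun hg m
      rw [Finset.sum_apply] at h3
      simp only [Pi.smul_apply, smul_eq_mul, Pi.zero_apply] at h3
      have h4 : ∑ x ∈ s, g x * u0 r a E x m = ∑ x ∈ ({x0, x1} : Finset _), g' x * u0 r a E x m := by
        have hsub : s ⊆ ({x0, x1} : Finset _) := by
          intro x _
          rcases hall x with h | h <;> simp [h]
        rw [← Finset.sum_subset hsub (f := fun x => g' x * u0 r a E x m)]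
        · apply Finset.sum_congr rfl
          intro x hx
          simp [hg', hx]
        · intro x _ hx
          simp [hg', hx]
      rw [h4, Finset.sum_pair hx] at h3
      exact h3
    have hne : zt (Zc (E, 0)) ≠ zt (Zc (E, 1)) := by
      rw [zt_Zc0 hE, zt_Zc1 hE (by norm_num)]
      intro hh
      have := congrArg Complex.im hh
      simp only at this
      linarith [sqrt_pos' hE]
    have := indep_aux h (norm_zt _) (norm_zt _) hne (g' x0) (g' x1) hsum
    intro i hi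
    rcases hall i with h | h
    · rw [← h] at this; simpa [hg', hi] using this.1
    · rw [← h] at this; simpa [hg', hi] using this.2
  · have : IsEmpty {α : ℕ // (α : ℕ∞) < n0 E} :=
      ⟨fun x => hE (n0_of_lt x.2).1⟩
    exact linearIndependent_empty_type

lemma rho0_support {E : ℝ} (hE : E ∈ Ioo (-1 : ℝ) 1) : E ∈ rho0.support := by
  rw [Measure.mem_support_iff_forall]
  intro U hU
  obtain ⟨V, hVU, hVo, hEV⟩ := _root_.mem_nhds_iff.mp hU
  apply lt_of_lt_of_le _ (measure_mono hVU)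
  unfold rho0
  rw [Measure.smul_apply, Measure.map_apply Real.measurable_cos hVo.measurableSet,
    Measure.restrict_apply (Real.measurable_cos hVo.measurableSet), smul_eq_mul]
  apply ENNReal.mul_pos
  · exact ENNReal.inv_ne_zero.mpr ENNReal.ofReal_ne_top
  · apply (IsOpen.measure_pos _ _ _).ne'
    · exact (hVo.preimage Real.continuous_cos).inter isOpen_Ioo
    · refine ⟨Real.arccos E, ?_, ?_, ?_⟩
      · show Real.cos (Real.arccos E) ∈ V
        rw [Real.cos_arccos hE.1.le hE.2.le]; exact hEV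
      · exact Real.arccos_pos.mpr hE.2
      · apply lt_of_le_of_ne (Real.arccos_le_pi E)
        intro hh
        rw [Real.arccos_eq_pi] at hh
        linarith [hE.1]

instance : IsFiniteMeasure rho0 := by
  unfold rho0
  constructor
  rw [Measure.smul_apply, Measure.map_apply Real.measurable_cos MeasurableSet.univ]
  simp only [preimage_univ, Measure.restrict_apply_univ, Real.volume_Ioo, smul_eq_mul]
  apply ENNReal.mul_lt_top
  · simp [Real.pi_pos]
  · exact ENNReal.ofReal_lt_top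

lemma rho0_ae : ∀ᵐ E ∂rho0, E ∈ Ioo (-1 : ℝ) 1 := by
  rw [← rho0_Ioo]
  exact ae_restrict_mem measurableSet_Ioo

/-- the BGK expansion -/
noncomputable def bgk (h : Good r a) (C : ℝ)
    (hC : ∀ m z, ‖z‖ = 1 → ‖ff r a m z‖ ≤ C * (1 + |(m : ℝ)|)) : BGK (Aop h) where
  ρ := rho0
  n := n0
  measurable_n := Measurable.ite measurableSet_Ioo measurable_const measurable_const
  one_le_n := by
    filter_upwards [rho0_ae] with E hE
    rw [n0_in hE]; norm_num
  n_eq_zero := by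
    intro E hE
    unfold n0
    rw [if_neg]
    intro h; exact hE (rho0_support h)
  u := u0 r a
  linInd := linInd_u0 h
  growth := fun E α _ => ⟨C, fun m => hC m _ (norm_zt _)⟩
  eigen := by
    intro E α hα
    have hE := (n0_of_lt hα).1
    have := formal_ff h (norm_zt (Zc (E, α)))
    rw [re_Zc' hE] at this
    exact this
  U := (hb h).repr.symm.trans Zeq
  U_del := by
    intro m
    rw [LinearIsometryEquiv.trans_apply, symm_del]
    have h1 := ContinuousMap.coeFn_toLp (p := 2) (𝕜 := ℂ) hm (fc h m)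
    have h2 := mp_Zc.quasiMeasurePreserving.ae_eq_comp h1
    filter_upwards [Zeq_ae (fv h m), h2] with p h3 h4
    rw [h3]
    exact h4
  U_mul := by
    intro g
    rw [LinearIsometryEquiv.trans_apply, LinearIsometryEquiv.trans_apply, Aop_apply,
      LinearIsometryEquiv.symm_apply_apply]
    have h2 := mp_Zc.quasiMeasurePreserving.ae_eq_comp (Mc_ae ((hb h).repr.symm g))
    filter_upwards [Zeq_ae (Mc ((hb h).repr.symm g)), Zeq_ae ((hb h).repr.symm g), h2, re_Zc]
      with p h3 h4 h5 h6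
    rw [h3, h4]
    simp only [Function.comp] at h5
    rw [h5, cc_apply, h6]

end H987Cav
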