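import Pool.Agent.H987Cav.Basis

/-!
The measure-theoretic identification of `L²` of the circle with `L²(ℝ; ℂ^{n(E)}; dρ)`.
-/

open Complex MeasureTheory ComplexConjugate Metric Submodule Set
open scoped Real ENNReal

namespace H987Cav

/-- the spectral measure -/
noncomputable def rho0 : Measure ℝ :=
  (ENNReal.ofReal (2 * π))⁻¹ • (volume.restrict (Ioo 0 π)).map Real.cos

/-- the multiplicity -/
noncomputable def n0 (E : ℝ) : ℕ∞ := if E ∈ Ioo (-1 : ℝ) 1 then 2 else 0

/-- angle of the point of the fibred spectrum -/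
noncomputable def Zc (p : ℝ × ℕ) : AddCircle (2 * π) :=
  if p.2 = 0 then ((Real.arccos p.1 : ℝ) : AddCircle (2 * π))
  else ((-Real.arccos p.1 : ℝ) : AddCircle (2 * π))

/-- the fibred spectrum point of an angle -/
noncomputable def Gc (x : AddCircle (2 * π)) : ℝ × ℕ :=
  ((zt x).re, if 0 < (zt x).im then 0 else 1)

lemma re_zt (θ : ℝ) : (zt (θ : AddCircle (2 * π))).re = Real.cos θ := by
  rw [zt_coe, Complex.exp_ofReal_mul_I_re]

lemma im_zt (θ : ℝ) : (zt (θ : AddCircle (2 * π))).im = Real.sin θ := by
  rw [zt_coe, Complex.exp_ofReal_mul_I_im]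

lemma measurable_Gc : Measurable Gc := by
  unfold Gc
  apply Measurable.prodMk
  · exact (continuous_re.comp continuous_zt).measurable
  · apply Measurable.ite _ measurable_const measurable_const
    exact measurableSet_lt measurable_const (continuous_im.comp continuous_zt).measurable

lemma measurable_Zc : Measurable Zc := by
  unfold Zc
  apply Measurable.ite
  · exact measurable_snd (measurableSet_singleton 0)
  · exact AddCircle.measurable_mk'.comp (Real.measurable_arccos.comp measurable_fst)
  · exact AddCircle.measurable_mk'.comp (Real.measurable_arccos.comp measurable_fst).neg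

lemma Zc_Gc (x : AddCircle (2 * π)) : Zc (Gc x) = x := by
  have hx : x ∈ ((↑) : ℝ → AddCircle (2 * π)) '' Ico (-π) (-π + 2 * π) := by
    rw [AddCircle.coe_image_Ico_eq]; trivial
  obtain ⟨θ, hθ, rfl⟩ := hx
  have hθ1 : -π ≤ θ := hθ.1
  have hθ2 : θ < π := by linarith [hθ.2]
  unfold Gc Zc
  rw [re_zt, im_zt]
  by_cases hs : 0 < Real.sin θ
  · rw [if_pos hs, if_pos rfl]
    have h0 : 0 < θ := by
      by_contra hcon
      have := Real.sin_nonpos_of_nonpos_of_neg_pi_le (not_lt.mp hcon) hθ1
      linarith
    simp only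
    rw [Real.arccos_cos h0.le hθ2.le]
  · rw [if_neg hs, if_neg (by norm_num)]
    have h0 : θ ≤ 0 := by
      by_contra hcon
      have := Real.sin_pos_of_pos_of_lt_pi (not_le.mp hcon) hθ2
      linarith
    simp only
    rw [← Real.cos_neg θ, Real.arccos_cos (by linarith) (by linarith), neg_neg]

lemma rho0_Ioo : rho0.restrict (Ioo (-1) 1) = rho0 := by
  apply Measure.restrict_eq_self_of_ae_mem
  unfold rho0
  apply Measure.ae_smul_measure
  refine (ae_map_iff (p := fun x => x ∈ Ioo (-1 : ℝ) 1) Real.measurable_cos.aemeasurable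
    measurableSet_Ioo).mpr ?_
  filter_upwards [ae_restrict_mem measurableSet_Ioo] with θ hθ
  constructor
  · rw [← Real.cos_pi]
    exact Real.cos_lt_cos_of_nonneg_of_le_pi hθ.1.le le_rfl hθ.2
  · rw [← Real.cos_zero]
    exact Real.cos_lt_cos_of_nonneg_of_le_pi le_rfl hθ.2.le hθ.1

lemma fib_eq : fib rho0 n0 = rho0.map (fun E => (E, 0)) + rho0.map (fun E => (E, 1)) := by
  ext S hS
  unfold fib
  rw [Measure.sum_apply _ hS, Measure.add_apply]
  have h2 : ∀ α ∉ ({0, 1} : Finset ℕ),
      (((rho0.restrict {E | (α : ℕ∞) < n0 E}).map (fun E => (E, α))) S) = 0 := by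
    intro α hα
    have hα2 : 2 ≤ α := by
      simp only [Finset.mem_insert, Finset.mem_singleton, not_or] at hα
      omega
    have : {E : ℝ | (α : ℕ∞) < n0 E} = ∅ := by
      ext E
      simp only [mem_ofPred_eq, mem_empty_iff_false, iff_false, not_lt]
      unfold n0
      split_ifs
      · exact_mod_cast hα2
      · exact zero_le
    rw [this]; simp
  rw [tsum_eq_sum h2, Finset.sum_pair (by norm_num)]
  have h3 : ∀ α : ℕ, α < 2 → {E : ℝ | (α : ℕ∞) < n0 E} = Ioo (-1) 1 := by
    intro α hα
    ext E
    simp only [mem_ofPred_eq]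
    unfold n0
    split_ifs with hE
    · simp only [hE, iff_true]
      exact_mod_cast hα
    · simp only [hE, iff_false, not_lt]
      exact zero_le
  rw [h3 0 (by norm_num), h3 1 (by norm_num), rho0_Ioo]

lemma map_rho0 (α : ℕ) : rho0.map (fun E => (E, α)) =
    (ENNReal.ofReal (2 * π))⁻¹ • (volume.restrict (Ioo 0 π)).map (fun θ => (Real.cos θ, α)) := by
  unfold rho0
  rw [Measure.map_smul, Measure.map_map (by fun_prop) Real.measurable_cos]
  rfl

lemma mp_Gc : MeasurePreserving Gc hm (fib rho0 n0) := by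
  refine ⟨measurable_Gc, ?_⟩
  have h1 : (hm : Measure (AddCircle (2 * π))) = (ENNReal.ofReal (2 * π))⁻¹ • volume := by
    rw [AddCircle.volume_eq_smul_haarAddCircle, smul_smul, ENNReal.inv_mul_cancel, one_smul]
    · simp [Real.pi_pos]
    · exact ENNReal.ofReal_ne_top
  have h2 := (AddCircle.measurePreserving_mk (2 * π) (-π)).map_eq
  rw [h1, Measure.map_smul, ← h2, Measure.map_map measurable_Gc AddCircle.measurable_mk',
    fib_eq, map_rho0, map_rho0, ← smul_add]
  congr 1
  have h3 : (volume : Measure ℝ).restrict (Ioc (-π) (-π + 2 * π)) =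
      (volume : Measure ℝ).restrict (Ioo (-π) 0) + (volume : Measure ℝ).restrict (Ioo 0 π) := by
    rw [show -π + 2 * π = π by ring]
    rw [← Measure.restrict_congr_set (Ioo_ae_eq_Ioc (μ := (volume : Measure ℝ)) (a := -π) (b := π))]
    rw [← Measure.restrict_union]
    · apply Measure.restrict_congr_set
      rw [← Ioo_union_Ico_eq_Ioo (a := -π) (b := 0) (c := π) (by linarith [Real.pi_pos])
        (by linarith [Real.pi_pos])]
      exact (ae_eq_refl _).union (Ioo_ae_eq_Ico).symm
    · rw [Set.disjoint_left]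
      intro x hx hx2
      linarith [hx.2, hx2.1]
    · exact measurableSet_Ioo
  rw [h3, Measure.map_add _ _ (measurable_Gc.comp AddCircle.measurable_mk'), add_comm]
  congr 1
  · apply Measure.map_congr
    filter_upwards [ae_restrict_mem measurableSet_Ioo] with θ hθ
    simp only [Function.comp, Gc]
    rw [re_zt, im_zt, if_pos (Real.sin_pos_of_pos_of_lt_pi hθ.1 hθ.2)]
  · have h4 : (volume : Measure ℝ).restrict (Ioo (-π) 0) =
        ((volume : Measure ℝ).restrict (Ioo 0 π)).map (fun θ => -θ) := by
      have := ((Measure.measurePreserving_neg (volume : Measure ℝ)).restrict_preimage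
        (s := Ioo (-π) 0) measurableSet_Ioo).map_eq
      rw [← this]
      congr 2
      ext x; simp [and_comm]
    rw [h4, Measure.map_map (measurable_Gc.comp AddCircle.measurable_mk') measurable_neg]
    apply Measure.map_congr
    filter_upwards [ae_restrict_mem measurableSet_Ioo] with θ hθ
    simp only [Function.comp, Gc]
    rw [re_zt, im_zt, Real.cos_neg, Real.sin_neg,
      if_neg (by linarith [Real.sin_pos_of_pos_of_lt_pi hθ.1 hθ.2])]

lemma mp_Zc : MeasurePreserving Zc (fib rho0 n0) hm := by
  refine ⟨measurable_Zc, ?_⟩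
  rw [← mp_Gc.map_eq, Measure.map_map measurable_Zc measurable_Gc]
  have : Zc ∘ Gc = id := funext fun x => Zc_Gc x
  rw [this, Measure.map_id]

end H987Cav
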