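import Pool.Agent.H987Cav.Chain

/-!
Orthonormality of the functions `ff r a m` on the circle (mean value property), and
the algebraic completeness.
-/

open Complex MeasureTheory ComplexConjugate Metric
open scoped Real

namespace H987Cav

instance factTwoPi : Fact (0 < 2 * π) := ⟨Real.two_pi_pos⟩

/-- the point of the circle with angle `x` -/
noncomputable def zt (x : AddCircle (2 * π)) : ℂ := (AddCircle.toCircle x : ℂ)

lemma norm_zt (x : AddCircle (2 * π)) : ‖zt x‖ = 1 := by simp [zt]

lemma zt_coe (θ : ℝ) : zt (θ : AddCircle (2 * π)) = exp (θ * I) := by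
  unfold zt
  rw [AddCircle.toCircle_apply_mk, Circle.coe_exp]
  congr 2
  have : (2 * π / (2 * π) * θ : ℝ) = θ := by
    field_simp
  rw [this]

lemma continuous_zt : Continuous zt := by
  unfold zt
  exact continuous_subtype_val.comp AddCircle.continuous_toCircle

lemma integral_zt (F : ℂ → ℂ) :
    ∫ x, F (zt x) ∂AddCircle.haarAddCircle = Real.circleAverage F 0 1 := by
  rw [AddCircle.integral_haarAddCircle, Real.circleAverage_def,
    ← AddCircle.intervalIntegral_preimage (2 * π) 0 (fun x => F (zt x)), zero_add]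
  congr 1
  apply intervalIntegral.integral_congr
  intro θ _
  simp only [zt_coe, circleMap]
  simp

lemma mean_eq (F : ℂ → ℂ) (hF : DifferentiableOn ℂ F (closedBall 0 1)) :
    ∫ x, F (zt x) ∂AddCircle.haarAddCircle = F 0 := by
  rw [integral_zt]
  apply DiffContOnCl.circleAverage
  apply DifferentiableOn.diffContOnCl
  rw [abs_one, closure_ball _ one_ne_zero]
  exact hF

variable {r : ℤ → ℝ} {a : ℤ → ℂ}

lemma diff_D (k : ℤ) : Differentiable ℂ (fun z : ℂ => 1 - (r k : ℂ) * (conj (a k) * z)) := by
  fun_prop

lemma diff_bf (h : Good r a) (k : ℤ) : DifferentiableOn ℂ (bf r a k) (closedBall 0 1) := by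
  unfold bf
  apply DifferentiableOn.div
  · fun_prop
  · fun_prop
  · intro z hz
    exact den_ne h k (by simpa using hz)

lemma diff_gf (h : Good r a) (k : ℤ) : DifferentiableOn ℂ (gf r a k) (closedBall 0 1) := by
  unfold gf
  apply DifferentiableOn.div
  · fun_prop
  · fun_prop
  · intro z hz
    exact den_ne h k (by simpa using hz)

lemma tail1 (h : Good r a) (k l : ℤ) (hkl : k ≤ l) :
    ∃ Q : ℂ → ℂ, DifferentiableOn ℂ Q (closedBall 0 1) ∧
      ∀ z, ‖z‖ = 1 → Pf r a l z = Pf r a k z * Q z := by
  induction l, hkl using Int.leInduction with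
  | base => exact ⟨fun _ => 1, differentiableOn_const _, fun z _ => by ring⟩
  | succ l hl ih =>
    obtain ⟨Q, hQ, hQ2⟩ := ih
    refine ⟨fun z => Q z * bf r a l z, hQ.mul (diff_bf h l), fun z hz => ?_⟩
    rw [Pf_succ h l hz, hQ2 z hz]; ring

lemma tail2 (h : Good r a) (k n : ℤ) (hkn : 2 * k ≤ n) :
    ∃ Q : ℂ → ℂ, DifferentiableOn ℂ Q (closedBall 0 1) ∧
      ∀ z, ‖z‖ = 1 → ff r a n z = Pf r a k z * Q z := by
  rcases Int.even_or_odd' n with ⟨l, rfl | rfl⟩
  · obtain ⟨Q, hQ, hQ2⟩ := tail1 h k l (by omega)
    exact ⟨Q, hQ, fun z hz => by rw [ff_even, hQ2 z hz]⟩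
  · obtain ⟨Q, hQ, hQ2⟩ := tail1 h k l (by omega)
    refine ⟨fun z => Q z * gf r a l z, hQ.mul (diff_gf h l), fun z hz => ?_⟩
    rw [ff_odd, hQ2 z hz]; ring

lemma conj_mul_Pf (h : Good r a) (k : ℤ) {z : ℂ} (hz : ‖z‖ = 1) :
    conj (Pf r a k z) * Pf r a k z = 1 := by
  rw [mul_comm, Complex.mul_conj, Complex.normSq_eq_norm_sq, norm_Pf h k hz]; simp

lemma conj_gf_mul_bf (h : Good r a) (k : ℤ) {z : ℂ} (hz : ‖z‖ = 1) :
    conj (gf r a k z) * bf r a k z = sf r k * z / (1 - r k * (conj (a k) * z)) := by
  have hd := den_ne h k hz.le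
  have hd' : conj (1 - r k * (conj (a k) * z)) ≠ 0 := (map_ne_zero _).mpr hd
  have hb := bf_mul h k hz.le
  have hg := gf_mul h k hz.le
  have hn := num_eq h k hz
  have hg' := congrArg conj hg
  rw [map_mul] at hg'
  have h1 : z * conj z = 1 := by
    rw [Complex.mul_conj, Complex.normSq_eq_norm_sq, hz]; simp
  have h2 := aa h k
  rw [eq_div_iff hd]
  apply mul_right_cancel₀ hd'
  have hs : conj (sf r k * (conj (a k) * z)) = sf r k * (a k * conj z) := by
    simp
  rw [hs] at hg'
  rw [hn] at hb
  calc conj (gf r a k z) * bf r a k z * (1 - r k * (conj (a k) * z)) *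
        conj (1 - r k * (conj (a k) * z))
      = (conj (gf r a k z) * conj (1 - r k * (conj (a k) * z))) *
        (bf r a k z * (1 - r k * (conj (a k) * z))) := by ring
    _ = (sf r k * (a k * conj z)) * (z * (conj (a k) * z *
          conj (1 - r k * (conj (a k) * z)))) := by rw [hg', hb]
    _ = sf r k * z * conj (1 - r k * (conj (a k) * z)) * ((a k * conj (a k)) * (z * conj z)) := by
        ring
    _ = sf r k * z * conj (1 - r k * (conj (a k) * z)) := by rw [h1, h2]; ring

/-- `conj f_m f_n` for `m < n` is the restriction of an analytic function vanishing at `0` -/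
lemma prod_lt (h : Good r a) (m n : ℤ) (hmn : m < n) :
    ∃ F : ℂ → ℂ, DifferentiableOn ℂ F (closedBall 0 1) ∧ F 0 = 0 ∧
      ∀ z, ‖z‖ = 1 → conj (ff r a m z) * ff r a n z = F z := by
  rcases Int.even_or_odd' m with ⟨k, rfl | rfl⟩
  · rcases eq_or_lt_of_le (show 2 * k + 1 ≤ n by omega) with h1 | h1
    · subst h1
      refine ⟨gf r a k, diff_gf h k, by simp [gf], fun z hz => ?_⟩
      rw [ff_even, ff_odd, ← mul_assoc, conj_mul_Pf h k hz, one_mul]
    · obtain ⟨Q, hQ, hQ2⟩ := tail2 h (k + 1) n (by omega)
      refine ⟨fun z => bf r a k z * Q z, (diff_bf h k).mul hQ, by simp [bf], fun z hz => ?_⟩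
      rw [ff_even, hQ2 z hz, Pf_succ h k hz, ← mul_assoc, ← mul_assoc, conj_mul_Pf h k hz, one_mul]
  · obtain ⟨Q, hQ, hQ2⟩ := tail2 h (k + 1) n (by omega)
    refine ⟨fun z => sf r k * z / (1 - r k * (conj (a k) * z)) * Q z, ?_, by simp, fun z hz => ?_⟩
    · apply DifferentiableOn.mul _ hQ
      apply DifferentiableOn.div
      · fun_prop
      · fun_prop
      · intro z hz
        exact den_ne h k (by simpa using hz)
    · show _ = sf r k * z / (1 - r k * (conj (a k) * z)) * Q z
      rw [ff_odd, hQ2 z hz, Pf_succ h k hz, ← conj_gf_mul_bf h k hz, map_mul]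
      linear_combination (conj (gf r a k z) * bf r a k z * Q z) * conj_mul_Pf h k hz

lemma contOn_ff (h : Good r a) (m : ℤ) : ContinuousOn (ff r a m) (sphere 0 1) := by
  have hb : ∀ k, ContinuousOn (bf r a k) (sphere 0 1) := fun k =>
    (diff_bf h k).continuousOn.mono sphere_subset_closedBall
  have hg : ∀ k, ContinuousOn (gf r a k) (sphere 0 1) := fun k =>
    (diff_gf h k).continuousOn.mono sphere_subset_closedBall
  have hP : ∀ k, ContinuousOn (Pf r a k) (sphere 0 1) := fun k => by
    unfold Pf
    apply ContinuousOn.mul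
    · exact continuousOn_finsetProd _ fun i _ => hb i
    · apply ContinuousOn.inv₀
      · exact continuousOn_finsetProd _ fun i _ => hb i
      · intro z hz
        exact Finset.prod_ne_zero_iff.mpr fun i _ => bf_ne h i (by simpa using hz)
  unfold ff
  by_cases h0 : m % 2 = 0
  · simp only [h0, if_true]; exact hP _
  · simp only [h0, if_false]; exact (hP _).mul (hg _)

lemma cont_ff (h : Good r a) (m : ℤ) : Continuous fun x => ff r a m (zt x) := by
  apply (contOn_ff h m).comp_continuous continuous_zt
  intro x; simp [norm_zt]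

lemma integrable_cont {F : AddCircle (2 * π) → ℂ} (hF : Continuous F) :
    Integrable F AddCircle.haarAddCircle :=
  hF.integrable_of_hasCompactSupport (HasCompactSupport.of_compactSpace F)

lemma prod_self (h : Good r a) (m : ℤ) :
    ∫ x, conj (ff r a m (zt x)) * ff r a m (zt x) ∂AddCircle.haarAddCircle = 1 := by
  rcases Int.even_or_odd' m with ⟨k, rfl | rfl⟩
  · have : ∀ x, conj (ff r a (2 * k) (zt x)) * ff r a (2 * k) (zt x) = 1 := fun x => by
      rw [ff_even, conj_mul_Pf h k (norm_zt x)]
    simp [this]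
  · set F : ℂ → ℂ := fun z => (1 + r k * (conj (a k) * z)) / (1 - r k * (conj (a k) * z)) with hF
    have hFd : DifferentiableOn ℂ F (closedBall 0 1) := by
      apply DifferentiableOn.div
      · fun_prop
      · fun_prop
      · intro z hz
        exact den_ne h k (by simpa using hz)
    have hFm := mean_eq F hFd
    have hFc : Continuous fun x => F (zt x) := by
      apply hFd.continuousOn.comp_continuous continuous_zt
      intro x; simp [norm_zt]
    have key : ∀ x, conj (ff r a (2 * k + 1) (zt x)) * ff r a (2 * k + 1) (zt x) =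
        (F (zt x) + conj (F (zt x))) * (1 / 2) := fun x => by
      have hz := norm_zt x
      set z := zt x
      have hd := den_ne h k hz.le
      have hd' : conj (1 - r k * (conj (a k) * z)) ≠ 0 := (map_ne_zero _).mpr hd
      have hg := gf_mul h k hz.le
      have hg' := congrArg conj hg
      rw [map_mul] at hg'
      have h1 : z * conj z = 1 := by
        rw [Complex.mul_conj, Complex.normSq_eq_norm_sq, hz]; simp
      have h2 := aa h k
      have hs : conj (sf r k * (conj (a k) * z)) = sf r k * (a k * conj z) := by simp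
      rw [hs] at hg'
      have hFz : F z * (1 - r k * (conj (a k) * z)) = 1 + r k * (conj (a k) * z) :=
        div_mul_cancel₀ _ hd
      have hFz' := congrArg conj hFz
      rw [map_mul] at hFz'
      have hD' : conj (1 - r k * (conj (a k) * z)) = 1 - r k * (a k * conj z) := by simp
      have hN' : conj (1 + r k * (conj (a k) * z)) = 1 + r k * (a k * conj z) := by simp
      rw [hN'] at hFz'
      rw [ff_odd, map_mul]
      apply mul_right_cancel₀ hd
      apply mul_right_cancel₀ hd'
      have e1 : conj (Pf r a k z) * conj (gf r a k z) * (Pf r a k z * gf r a k z) *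
          (1 - r k * (conj (a k) * z)) * conj (1 - r k * (conj (a k) * z)) =
          (conj (Pf r a k z) * Pf r a k z) *
          ((conj (gf r a k z) * conj (1 - r k * (conj (a k) * z))) *
          (gf r a k z * (1 - r k * (conj (a k) * z)))) := by ring
      have e2 : (F z + conj (F z)) * (1 / 2) *
          (1 - r k * (conj (a k) * z)) * conj (1 - r k * (conj (a k) * z)) =
          (1 / 2) * ((F z * (1 - r k * (conj (a k) * z))) * conj (1 - r k * (conj (a k) * z)) +
           (conj (F z) * conj (1 - r k * (conj (a k) * z))) * (1 - r k * (conj (a k) * z))) := by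
        ring
      rw [e1, e2, hg', hg, conj_mul_Pf h k hz, hFz, hFz', hD']
      have hss := sf_sqC h k
      linear_combination (a k * conj (a k) * (z * conj z)) * hss + h1 + (z * conj z) * h2
    simp_rw [key]
    have hi : Integrable (fun x => conj (F (zt x))) AddCircle.haarAddCircle :=
      integrable_cont (continuous_conj.comp hFc)
    rw [integral_mul_const, integral_add (integrable_cont hFc) hi, integral_conj, hFm]
    simp [hF]
    norm_num

lemma ortho (h : Good r a) (m n : ℤ) :
    ∫ x, conj (ff r a m (zt x)) * ff r a n (zt x) ∂AddCircle.haarAddCircle =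
      if m = n then 1 else 0 := by
  rcases lt_trichotomy m n with hlt | heq | hgt
  · obtain ⟨F, hF, hF0, hF2⟩ := prod_lt h m n hlt
    rw [if_neg hlt.ne]
    rw [← hF0, ← mean_eq F hF]
    exact integral_congr_ae (Filter.Eventually.of_forall fun x => hF2 _ (norm_zt x))
  · subst heq; rw [if_pos rfl]; exact prod_self h m
  · obtain ⟨F, hF, hF0, hF2⟩ := prod_lt h n m hgt
    rw [if_neg hgt.ne']
    have := mean_eq F hF
    rw [hF0] at this
    have h3 : ∫ x, conj (conj (ff r a n (zt x)) * ff r a m (zt x)) ∂AddCircle.haarAddCircle = 0 := by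
      rw [integral_conj]
      rw [map_eq_zero, ← this]
      exact integral_congr_ae (Filter.Eventually.of_forall fun x => hF2 _ (norm_zt x))
    rw [← h3]
    refine integral_congr_ae (Filter.Eventually.of_forall fun x => ?_)
    simp [mul_comm]

end H987Cav
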