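import Pool.Agent.H987Cav.Expansion

/-!
The space of formal solutions of `A v = E v` is two-dimensional for `-1 < E < 1`.
-/

open Complex MeasureTheory ComplexConjugate Metric Submodule Set
open scoped Real ENNReal

namespace H987Cav

variable {r : ℤ → ℝ} {a : ℤ → ℂ}

lemma formal_even (h : Good r a) {E : ℂ} {v : ℤ → ℂ} (hv : FormalEig (Aop h) E v) (k : ℤ) :
    -(r k : ℂ) * v (2 * k + 2) + sf r k * a k * v (2 * k + 1)
      + (-(r (k - 1) : ℂ) * v (2 * k - 2) + sf r (k - 1) * v (2 * k - 1)) = 2 * E * v (2 * k) := by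
  have h1 := hasSum_row h _ _ _ (exp_even h k) v
  have h2 := (hv (2 * k)).unique h1
  rw [Fin.sum_univ_four] at h2
  simp only [Matrix.cons_val] at h2
  linear_combination (-2) * h2

lemma formal_odd (h : Good r a) {E : ℂ} {v : ℤ → ℂ} (hv : FormalEig (Aop h) E v) (k : ℤ) :
    (sf r k : ℂ) * v (2 * k + 2) + r k * (a k + conj (a k)) * v (2 * k + 1)
      + sf r k * conj (a k) * v (2 * k) = 2 * E * v (2 * k + 1) := by
  have h1 := hasSum_row h _ _ _ (exp_odd h k) v
  have h2 := (hv (2 * k + 1)).unique h1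
  rw [Fin.sum_univ_three] at h2
  simp only [Matrix.cons_val] at h2
  linear_combination (-2) * h2

/-- the determinant of the step -/
lemma det_ne (h : Good r a) (k : ℤ) {z : ℂ} (hz : ‖z‖ = 1) :
    1 - 2 * (z.re : ℂ) * r k * conj (a k) + r k * r k * conj (a k) * conj (a k) ≠ 0 := by
  have h1 := den_ne h k hz.le
  have h2 := den_ne h k (z := conj z) (by rw [RCLike.norm_conj, hz])
  have h3 : z * conj z = 1 := by
    rw [Complex.mul_conj, Complex.normSq_eq_norm_sq, hz]; simp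
  have h4 : (2 * (z.re : ℂ)) = z + conj z := by rw [Complex.add_conj]; push_cast; ring
  have h5 : 1 - 2 * (z.re : ℂ) * r k * conj (a k) + r k * r k * conj (a k) * conj (a k) =
      (1 - r k * (conj (a k) * z)) * (1 - r k * (conj (a k) * conj z)) := by
    rw [h4]; linear_combination (-(r k * r k * conj (a k) * conj (a k) : ℂ)) * h3
  rw [h5]
  exact mul_ne_zero h1 h2

lemma sfne (h : Good r a) (k : ℤ) : (sf r k : ℂ) ≠ 0 := by
  exact_mod_cast (sf_pos h k).ne'

lemma ane (h : Good r a) (k : ℤ) : a k ≠ 0 := by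
  intro h0; have := h.an k; rw [h0, norm_zero] at this; norm_num at this

lemma step_fwd (h : Good r a) {z : ℂ} (hz : ‖z‖ = 1) {v : ℤ → ℂ}
    (hv : FormalEig (Aop h) (z.re : ℂ) v) (k : ℤ) (hx : v (2 * k) = 0)
    (hy : -(r (k - 1) : ℂ) * v (2 * k - 2) + sf r (k - 1) * v (2 * k - 1) = 0) :
    v (2 * k + 1) = 0 ∧ v (2 * k + 2) = 0 := by
  have e1 := formal_even h hv k
  have e2 := formal_odd h hv k
  rw [hx, hy] at e1
  rw [hx] at e2
  have hs := sf_sqC h k
  have ha := aa h k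
  have hd := det_ne h k hz
  have e3 : (a k * (1 - 2 * (z.re : ℂ) * r k * conj (a k) + r k * r k * conj (a k) * conj (a k)))
      * v (2 * k + 1) = 0 := by
    linear_combination (sf r k : ℂ) * e1 + (r k : ℂ) * e2 - (a k * v (2 * k + 1)) * hs
      + (-(2 * (z.re : ℂ) * r k) + r k * r k * conj (a k)) * v (2 * k + 1) * ha
  have e4 : v (2 * k + 1) = 0 := by
    rcases mul_eq_zero.mp e3 with h' | h'
    · exact absurd h' (mul_ne_zero (ane h k) hd)
    · exact h'
  rw [e4] at e2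
  refine ⟨e4, ?_⟩
  have e5 : (sf r k : ℂ) * v (2 * k + 2) = 0 := by linear_combination e2
  exact (mul_eq_zero.mp e5).resolve_left (sfne h k)

lemma step_bwd (h : Good r a) {z : ℂ} (hz : ‖z‖ = 1) {v : ℤ → ℂ}
    (hv : FormalEig (Aop h) (z.re : ℂ) v) (k : ℤ) (hx : v (2 * k + 2) = 0)
    (hy : -(r k : ℂ) * v (2 * k) + sf r k * v (2 * k + 1) = 0) :
    v (2 * k) = 0 ∧ -(r (k - 1) : ℂ) * v (2 * k - 2) + sf r (k - 1) * v (2 * k - 1) = 0 := by
  have e1 := formal_even h hv k
  have e2 := formal_odd h hv k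
  rw [hx] at e1 e2
  have hs := sf_sqC h k
  have ha := aa h k
  have hd := det_ne h k hz
  have hd' : conj (1 - 2 * (z.re : ℂ) * r k * conj (a k) + r k * r k * conj (a k) * conj (a k))
      ≠ 0 := (map_ne_zero _).mpr hd
  simp only [map_add, map_sub, map_mul, map_one, Complex.conj_ofReal, Complex.conj_conj,
    map_ofNat] at hd'
  have e3 : (1 - 2 * (z.re : ℂ) * r k * a k + r k * r k * a k * a k) * v (2 * k + 1) = 0 := by
    linear_combination (sf r k : ℂ) * hy + (r k * a k : ℂ) * e2 - v (2 * k + 1) * hs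
      - (r k * r k * v (2 * k + 1) + r k * sf r k * v (2 * k)) * ha
  have e4 : v (2 * k + 1) = 0 := (mul_eq_zero.mp e3).resolve_left hd'
  have e5 : v (2 * k) = 0 := by
    rw [e4] at e2
    have : (sf r k : ℂ) * conj (a k) * v (2 * k) = 0 := by linear_combination e2
    refine (mul_eq_zero.mp this).resolve_left (mul_ne_zero (sfne h k) ?_)
    exact (map_ne_zero _).mpr (ane h k)
  refine ⟨e5, ?_⟩
  rw [e4, e5] at e1
  linear_combination e1

lemma sol_zero (h : Good r a) {z : ℂ} (hz : ‖z‖ = 1) {v : ℤ → ℂ}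
    (hv : FormalEig (Aop h) (z.re : ℂ) v) (hx : v 0 = 0)
    (hy : -(r (-1) : ℂ) * v (-2) + sf r (-1) * v (-1) = 0) : ∀ m, v m = 0 := by
  have key : ∀ k : ℤ, v (2 * k) = 0 ∧
      -(r (k - 1) : ℂ) * v (2 * k - 2) + sf r (k - 1) * v (2 * k - 1) = 0 := by
    intro k
    induction k using Int.induction_on with
    | zero =>
      refine ⟨by simpa using hx, ?_⟩
      simpa using hy
    | succ n ih =>
      obtain ⟨e1, e2⟩ := step_fwd h hz hv n ih.1 ih.2
      refine ⟨by rw [show 2 * ((n : ℤ) + 1) = 2 * n + 2 by ring]; exact e2, ?_⟩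
      rw [show (n : ℤ) + 1 - 1 = n by ring, show 2 * ((n : ℤ) + 1) - 2 = 2 * n by ring,
        show 2 * ((n : ℤ) + 1) - 1 = 2 * n + 1 by ring, ih.1, e1]
      ring
    | pred n ih =>
      have ih1 := ih.1
      have ih2 := ih.2
      have := step_bwd h hz hv (-(n : ℤ) - 1)
        (by rw [show 2 * (-(n : ℤ) - 1) + 2 = 2 * (-(n : ℤ)) by ring]; exact ih1)
        (by
          rw [show 2 * (-(n : ℤ) - 1) = 2 * (-(n : ℤ)) - 2 by ring,
            show 2 * (-(n : ℤ)) - 2 + 1 = 2 * (-(n : ℤ)) - 1 by ring]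
          exact ih2)
      exact this
  intro m
  rcases Int.even_or_odd' m with ⟨k, hk | hk⟩
  · rw [hk]; exact (key k).1
  · rw [hk]; exact (step_fwd h hz hv k (key k).1 (key k).2).1

lemma formal_comb (A : Hil →L[ℂ] Hil) {E : ℂ} {v v1 v2 : ℤ → ℂ} (hv : FormalEig A E v)
    (h1 : FormalEig A E v1) (h2 : FormalEig A E v2) (α β : ℂ) :
    FormalEig A E (fun m => v m - (α * v1 m + β * v2 m)) := by
  intro i
  have := (hv i).sub (((h1 i).mul_left α).add ((h2 i).mul_left β))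
  convert! this using 1
  · ext j; ring
  · ring

/-- every formal solution is a combination of the two explicit ones -/
theorem sol_span (h : Good r a) {z z' : ℂ} (hz : ‖z‖ = 1) (hz' : ‖z'‖ = 1) (hne : z ≠ z')
    (hre : z.re = z'.re) {v : ℤ → ℂ} (hv : FormalEig (Aop h) (z.re : ℂ) v) :
    ∃ α β : ℂ, ∀ m, v m = α * ff r a m z + β * ff r a m z' := by
  set y : ℂ := -(r (-1) : ℂ) * v (-2) + sf r (-1) * v (-1) with hy
  have hinv : z⁻¹ - z'⁻¹ ≠ 0 := by
    intro h0
    exact hne (inv_injective (sub_eq_zero.mp h0))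
  set α : ℂ := (y - z'⁻¹ * v 0) / (z⁻¹ - z'⁻¹) with hα
  set β : ℂ := v 0 - α with hβ
  have hαm : α * (z⁻¹ - z'⁻¹) = y - z'⁻¹ * v 0 := div_mul_cancel₀ _ hinv
  refine ⟨α, β, ?_⟩
  have f1 := formal_ff h hz
  have f2 := formal_ff h hz'
  rw [← hre] at f2
  have f3 := formal_comb (Aop h) hv f1 f2 α β
  have g1 := rel3 h (-1) hz
  have g2 := rel3 h (-1) hz'
  rw [show (2 * (-1) + 2 : ℤ) = 2 * 0 by ring, show (2 * (-1) + 1 : ℤ) = -1 by ring,
    show (2 * (-1) : ℤ) = -2 by ring, ff_even, Pf_zero, mul_one] at g1 g2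
  have hf0 : ∀ z, ff r a 0 z = 1 := fun z => by
    rw [show (0 : ℤ) = 2 * 0 by ring, ff_even, Pf_zero]
  have f4 := sol_zero h hz f3 (by simp only [hf0]; rw [hβ]; ring) (by
    linear_combination (-1) * hαm + α * g1 + β * g2 + z'⁻¹ * hβ)
  intro m
  exact sub_eq_zero.mp (f4 m)

end H987Cav
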