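import Mathlib

/-!
Definitions used in the statement for problem MP_33280d_mp.
-/

open MeasureTheory ComplexConjugate
open scoped ENNReal

namespace H987Cav.St

/-- The Hilbert space `ℓ²(ℤ)` of complex sequences. -/
def Hil : Type := lp (fun _ : ℤ => ℂ) 2

noncomputable instance instNHil : NormedAddCommGroup Hil :=
  (lp.normedAddCommGroup : NormedAddCommGroup (lp (fun _ : ℤ => ℂ) 2))

noncomputable instance instIHil : InnerProductSpace ℂ Hil :=
  (lp.instInnerProductSpace : InnerProductSpace ℂ (lp (fun _ : ℤ => ℂ) 2))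

instance instCHil : CompleteSpace Hil :=
  (lp.completeSpace : CompleteSpace (lp (fun _ : ℤ => ℂ) 2))

/-- Bounded operators on `ℓ²(ℤ)`. -/
abbrev Op : Type := Hil →L[ℂ] Hil

/-- The standard basis vector `δ_m` of `ℓ²(ℤ)`. -/
noncomputable def del (m : ℤ) : Hil := lp.single (E := fun _ : ℤ => ℂ) 2 m (1 : ℂ)

/-- Matrix elements `a_ij = (δ_i, A δ_j)`. -/
noncomputable def elt (A : Op) (i j : ℤ) : ℂ :=
  @inner ℂ Hil InnerProductSpace.toInner (del i) (A (del j))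

/-- `a_ij = 0` whenever `|i - j| ≥ K`. -/
def BandedBy (A : Op) (K : ℕ) : Prop := ∀ i j : ℤ, (K : ℤ) ≤ |i - j| → elt A i j = 0

/-- `v` solves `∑_j a_ij v_j = E v_i` for every `i` (no decay of `v` is required). -/
def FormalEig (A : Op) (E : ℝ) (v : ℤ → ℂ) : Prop :=
  ∀ i, HasSum (fun j => elt A i j * v j) (E * v i)

/-- The measure on `ℝ × ℕ` which is `ρ` on the `α`-th copy of `{E | α < n E}`.  A function on
`ℝ × ℕ` modulo null sets is a family `(f_α(E))_{α < n(E)}`, the components being numbered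
`α = 0, 1, …` below `n E`. -/
noncomputable def fib (ρ : Measure ℝ) (n : ℝ → ℕ∞) : Measure (ℝ × ℕ) :=
  Measure.sum fun α : ℕ => (ρ.restrict {E | (α : ℕ∞) < n E}).map (fun E => (E, α))

/-- `L²(ℝ; ℂ^{n(E)}; dρ)`, as the `L²` space of `fib ρ n`. -/
def L2fib (ρ : Measure ℝ) (n : ℝ → ℕ∞) : Type := Lp ℂ 2 (fib ρ n)

noncomputable instance instNFib (ρ : Measure ℝ) (n : ℝ → ℕ∞) : NormedAddCommGroup (L2fib ρ n) :=
  (Lp.instNormedAddCommGroup : NormedAddCommGroup (Lp ℂ 2 (fib ρ n)))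

noncomputable instance instIFib (ρ : Measure ℝ) (n : ℝ → ℕ∞) : InnerProductSpace ℂ (L2fib ρ n) :=
  (L2.innerProductSpace : InnerProductSpace ℂ (Lp ℂ 2 (fib ρ n)))

/-- The function `(E, α) ↦ f_α(E)` of an element of `L²(ℝ; ℂ^{n(E)}; dρ)` (up to null sets). -/
noncomputable def L2fib.fn {ρ : Measure ℝ} {n : ℝ → ℕ∞} (f : L2fib ρ n) : ℝ × ℕ → ℂ :=
  AEEqFun.cast (Subtype.val (p := fun g : (ℝ × ℕ) →ₘ[fib ρ n] ℂ => g ∈ Lp ℂ 2 (fib ρ n)) f)

/-- A BGK expansion of `A`: the measure `ρ`, the multiplicity `n`, the linearly independent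
sequences `u_α(E;·)`, `α < n(E)`, with (a) the growth bound, (b) the eigenvalue equation,
(c) the unitary map `U` of `ℓ²(ℤ)` onto `L²(ℝ; ℂ^{n(E)}; dρ)` with
`(U δ_m)_α(E) = conj (u_α(E;m))`, and (d) `U` carries `A` to multiplication by `E`. -/
structure BGK (A : Op) where
  /-- the measure -/
  ρ : Measure ℝ
  /-- the multiplicity -/
  n : ℝ → ℕ∞
  measurable_n : Measurable n
  one_le_n : ∀ᵐ E ∂ρ, 1 ≤ n E
  n_eq_zero : ∀ E, E ∉ ρ.support → n E = 0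
  /-- the generalized eigenfunctions -/
  u : ℝ → ℕ → ℤ → ℂ
  linInd : ∀ E, LinearIndependent ℂ (fun α : {α : ℕ // (α : ℕ∞) < n E} => u E α)
  growth : ∀ E, ∀ α : ℕ, (α : ℕ∞) < n E → ∃ C : ℝ, ∀ m, ‖u E α m‖ ≤ C * (1 + |(m : ℝ)|)
  eigen : ∀ E, ∀ α : ℕ, (α : ℕ∞) < n E → FormalEig A E (u E α)
  /-- the unitary map -/
  U : Hil ≃ₗᵢ[ℂ] L2fib ρ n
  U_del : ∀ m, (U (del m)).fn =ᵐ[fib ρ n] fun p => conj (u p.1 p.2 m)
  U_mul : ∀ g, (U (A g)).fn =ᵐ[fib ρ n] fun p => (p.1 : ℂ) * (U g).fn p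

end H987Cav.St
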